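import Pool.Agent.H48.OR.Defs

/-! Basic facts on `Arrows` and `ramsey`. -/

set_option autoImplicit false

namespace H48.OR

/-- `Arrows` for subsets of `ℕ` -/
theorem Arrows.finset {M s : ℕ} (hM : Arrows M s) (V : Finset ℕ) (hV : M ≤ V.card)
    (f : ℕ → ℕ → Bool) : ∃ S : Finset ℕ, S ⊆ V ∧ S.card = s ∧ ∃ col : Bool,
      ∀ x ∈ S, ∀ y ∈ S, x < y → f x y = col := by
  obtain ⟨W, hWV, hW⟩ := Finset.exists_subset_card_eq hV
  let g : Fin M ↪o ℕ := W.orderEmbOfFin hW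
  obtain ⟨S, hS, col, hcol⟩ := hM (fun x y => f (g x) (g y))
  refine ⟨S.map g.toEmbedding, ?_, by rw [Finset.card_map, hS], col, ?_⟩
  · intro z hz
    obtain ⟨x, _, rfl⟩ := Finset.mem_map.1 hz
    exact hWV (Finset.orderEmbOfFin_mem W hW x)
  · intro x hx y hy hxy
    obtain ⟨u, hu, rfl⟩ := Finset.mem_map.1 hx
    obtain ⟨v, hv, rfl⟩ := Finset.mem_map.1 hy
    have huv : u < v := g.lt_iff_lt.1 hxy
    exact hcol u hu v hv huv

/-- converse of `Arrows.finset` -/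
theorem arrows_of_finset {N t : ℕ}
    (h : ∀ f : ℕ → ℕ → Bool, ∃ S : Finset ℕ, S ⊆ Finset.range N ∧ S.card = t ∧ ∃ col : Bool,
      ∀ x ∈ S, ∀ y ∈ S, x < y → f x y = col) : Arrows N t := by
  intro f
  obtain ⟨S, hS, hc, col, hcol⟩ := h (fun x y => if h : x < N ∧ y < N then f ⟨x, h.1⟩ ⟨y, h.2⟩ else true)
  have hS' : ∀ x ∈ S, x < N := fun x hx => Finset.mem_range.1 (hS hx)
  refine ⟨S.attachFin hS', by rw [Finset.card_attachFin, hc], col, ?_⟩
  intro x hx y hy hxy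
  have hx' := (Finset.mem_attachFin hS').1 hx
  have hy' := (Finset.mem_attachFin hS').1 hy
  have h1 := hcol x hx' y hy' hxy
  rw [dif_pos ⟨x.2, y.2⟩] at h1
  exact h1

theorem Arrows.mono {N s t : ℕ} (h : Arrows N t) (hst : s ≤ t) : Arrows N s := by
  intro f
  obtain ⟨S, hS, col, hcol⟩ := h f
  obtain ⟨S', hS', hc⟩ := Finset.exists_subset_card_eq (hst.trans hS.ge)
  exact ⟨S', hc, col, fun x hx y hy hxy => hcol x (hS' hx) y (hS' hy) hxy⟩

theorem arrows_zero : Arrows 0 0 := fun _ => ⟨∅, rfl, true, by simp⟩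

end H48.OR
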