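import Mathlib

/-!
On-line Ramsey numbers of cliques (problem `MP_8e62ee_co`): definitions and the tree form of the game.

`onlineRamsey` and `ramsey` are literally the quantities of the frozen statement `S10087`.

A position of the game is a set `P : Set ((ℕ × ℕ) × Bool)` of coloured edges; we only use edges `(x, y)` with
`x < y`. `CW t n P`: from the position `P` Builder can force a one-coloured `K_t` within `n` further turns.
-/

set_option autoImplicit false

namespace H48.OR

/-- Builder (who chooses pairwise different edges `B (colours so far)`, one at a time) can force a one-coloured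
complete graph on `t` vertices within `n` turns. -/
def Forces (t n : ℕ) : Prop :=
  ∃ B : List Bool → ℕ × ℕ, ∀ c : ℕ → Bool, ∃ m : ℕ, m ≤ n ∧
    (∀ i : ℕ, i < m → (B (List.map c (List.range i))).1 ≠
        (B (List.map c (List.range i))).2) ∧
    (∀ i : ℕ, i < m → ∀ j : ℕ, j < m → i ≠ j →
        ¬ (((B (List.map c (List.range i))).1 = (B (List.map c (List.range j))).1 ∧
            (B (List.map c (List.range i))).2 = (B (List.map c (List.range j))).2) ∨
           ((B (List.map c (List.range i))).1 = (B (List.map c (List.range j))).2 ∧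
            (B (List.map c (List.range i))).2 = (B (List.map c (List.range j))).1))) ∧
    ∃ S : Finset ℕ, S.card = t ∧ ∃ col : Bool, ∀ x ∈ S, ∀ y ∈ S, x ≠ y →
      ∃ i : ℕ, i < m ∧
        ((x = (B (List.map c (List.range i))).1 ∧ y = (B (List.map c (List.range i))).2) ∨
         (y = (B (List.map c (List.range i))).1 ∧ x = (B (List.map c (List.range i))).2)) ∧
        c i = col

/-- the on-line Ramsey number of `K_t` -/
noncomputable def onlineRamsey (t : ℕ) : ℕ := sInf {n : ℕ | Forces t n}

/-- every red/blue colouring of the complete graph on `N` vertices has a one-coloured `K_t` -/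
def Arrows (N t : ℕ) : Prop :=
  ∀ f : Fin N → Fin N → Bool, ∃ S : Finset (Fin N),
    S.card = t ∧ ∃ col : Bool, ∀ x ∈ S, ∀ y ∈ S, x < y → f x y = col

/-- the diagonal Ramsey number of `K_t` -/
noncomputable def ramsey (t : ℕ) : ℕ := sInf {N : ℕ | Arrows N t}

/-- a position: the set of exposed edges `(x, y)`, `x < y`, with their colours -/
abbrev Pos : Type := Set ((ℕ × ℕ) × Bool)

/-- the edge between `x` and `y` has been exposed and has colour `b` -/
def Col (P : Pos) (b : Bool) (x y : ℕ) : Prop := ((min x y, max x y), b) ∈ P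

/-- the position contains a one-coloured `K_t` -/
def Mono (t : ℕ) (P : Pos) : Prop :=
  ∃ S : Finset ℕ, S.card = t ∧ ∃ b : Bool, ∀ x ∈ S, ∀ y ∈ S, x ≠ y → Col P b x y

/-- Builder can force a one-coloured `K_t` from the position `P` within `n` further turns -/
def CW (t : ℕ) : ℕ → Pos → Prop
  | 0, P => Mono t P
  | n + 1, P => Mono t P ∨ ∃ e : ℕ × ℕ, e.1 < e.2 ∧ (∀ b, (e, b) ∉ P) ∧
      ∀ b : Bool, CW t n (insert (e, b) P)

/-- a state of Builder's strategy: a red clique `A`, a blue clique `B`, and a vertex set `V` inside which nothing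
has been exposed, all edges between `A` and `V` are red, all edges between `B` and `V` are blue -/
structure State (P : Pos) (A B V : Finset ℕ) : Prop where
  red : ∀ x ∈ A, ∀ y ∈ A, x ≠ y → Col P true x y
  blue : ∀ x ∈ B, ∀ y ∈ B, x ≠ y → Col P false x y
  redV : ∀ x ∈ A, ∀ v ∈ V, Col P true x v
  blueV : ∀ x ∈ B, ∀ v ∈ V, Col P false x v
  disjA : Disjoint A V
  disjB : Disjoint B V
  fresh : ∀ u ∈ V, ∀ v ∈ V, u ≠ v → ∀ b, ¬ Col P b u v

/-- the potential `K (p^b q^a + p^a q^b)` with `p = 1/9`, `q = 8/9` -/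
noncomputable def Phi (K : ℝ) (a b : ℕ) : ℝ := K * (8 ^ a + 8 ^ b) / 9 ^ (a + b)

theorem Phi_step (K : ℝ) (a b : ℕ) : Phi K (a + 1) b + Phi K a (b + 1) = Phi K a b := by
  unfold Phi
  rw [show a + 1 + b = (a + b) + 1 by ring, show a + (b + 1) = (a + b) + 1 by ring, pow_succ (9 : ℝ)]
  have h : (9 : ℝ) ^ (a + b) ≠ 0 := by positivity
  field_simp
  ring

/-- lower bound of the potential for `a, b ≤ t` and `min a b ≤ y` -/
theorem Phi_lower (K : ℝ) (hK : 0 ≤ K) (t y a b : ℕ) (ha : a ≤ t) (hb : b ≤ t) (h : a ≤ y ∨ b ≤ y) :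
    K * ((8 / 9 : ℝ) ^ t * (1 / 9) ^ y) ≤ Phi K a b := by
  have key : ∀ c d : ℕ, c ≤ t → d ≤ y →
      (8 / 9 : ℝ) ^ t * (1 / 9) ^ y ≤ (8 / 9 : ℝ) ^ c * (1 / 9) ^ d := by
    intro c d hc hd
    apply mul_le_mul
    · exact pow_le_pow_of_le_one (by norm_num) (by norm_num) hc
    · exact pow_le_pow_of_le_one (by norm_num) (by norm_num) hd
    · positivity
    · positivity
  unfold Phi
  rw [mul_div_assoc]
  apply mul_le_mul_of_nonneg_left _ hK
  rcases h with h | h
  · have h1 := key b a hb h
    have h2 : (8 / 9 : ℝ) ^ b * (1 / 9) ^ a = 8 ^ b / 9 ^ (a + b) := by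
      rw [div_pow, div_pow, pow_add, one_pow]
      field_simp
    rw [h2] at h1
    refine h1.trans ?_
    apply div_le_div_of_nonneg_right _ (by positivity)
    have : (0 : ℝ) ≤ 8 ^ a := by positivity
    linarith
  · have h1 := key a b ha h
    have h2 : (8 / 9 : ℝ) ^ a * (1 / 9) ^ b = 8 ^ a / 9 ^ (a + b) := by
      rw [div_pow, div_pow, pow_add, one_pow]
      field_simp
    rw [h2] at h1
    refine h1.trans ?_
    apply div_le_div_of_nonneg_right _ (by positivity)
    have : (0 : ℝ) ≤ 8 ^ b := by positivity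
    linarith

end H48.OR
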