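import Mathlib

/-!
JOB OR-DENS. A density lemma for increasing sequences (pure analysis).

PROOF. Let `G x = ℓ ⌈x⌉₊` for real `x` (monotone). Let `g t = t - (t / 10 + 1)`, `D t = ℓ t - ℓ (g t) ≥ 0`.
(1) For `t ≥ 1`, `t - 1 < x ≤ t`: `G x = ℓ t` and `G (9 x / 10) ≥ ℓ (g t)`, because `⌈9 x / 10⌉₊ ≥ g t`: `9 x / 10 > 9 t / 10 - 9 / 10`; with
`t = 10 q + r`, `g t = 9 q + r - 1` and `9 t / 10 - 9 / 10 = 9 q + 9 (r - 1) / 10 ≥ 9 q + r - 2` for `1 ≤ r ≤ 9`, so `9 x / 10 > g t - 1`; for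
`r = 0`: `9 t/10 - 9/10 > 9 q - 2`. Hence `(G x - G (9 x / 10)) / x ≤ D t / (t - 1)` for `t ≥ 2`.
(2) For naturals `m < T`, `0 < m`: `∫ x in m..T, (G x - G (9/10 x)) / x = ∫ x in (9/10 T)..T, G x / x - ∫ x in (9/10 m)..m, G x / x`
(substitution `u = 9 x / 10`: `intervalIntegral.integral_comp_mul_left`, and `intervalIntegral.integral_add_adjacent_intervals`).
(3) The first integral is at least `T / 20` if `9/10 T ≥ t0` (as `G x ≥ ⌈x⌉ / 2 ≥ x / 2`); the second one is at most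
`∫ C (x + 2) / x ≤ (m / 10) * C * (1 + 2 / (9 m / 10)) ≤ C * m / 10 + C`.
(4) The left side is at most `∑ t in (m, T], D t / (t - 1)` by (1) (`intervalIntegral.sum_integral_adjacent_intervals_Ico`).
For `t > m`: if `t` is not good, `D t / (t - 1) < (t / 1000) / (t - 1) ≤ (1 + 1/m) / 1000`; if `t` is good,
`D t / (t - 1) ≤ (487/1000 t + C) / (t - 1) ≤ 487/1000 (1 + 1/m) + C / m`.
(5) With `m = ⌊T / K⌋₊`, `K = 1000 (C + 1)` (so `C m / 10 ≤ T / 10000`), `m → ∞` as `T → ∞`, and the number `Γ` of good `t ≤ T`: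
`T / 20 - T / 10000 - C ≤ (1 + 1/m) T / 1000 + (487/1000 (1 + 1/m) + C/m) Γ`, so for all large `T`
`0.0499 T - C ≤ 0.00101 T + 0.4872 Γ`, `Γ ≥ (0.04889 T - C) / 0.4872 ≥ 0.1001 T` for large `T` (`0.04889 / 0.4872 = 0.10035`).
-/

set_option autoImplicit false

namespace H48.OR

open MeasureTheory intervalIntegral Set in
lemma dens_int {G : ℝ → ℝ} (hG : Monotone G) {a b : ℝ} (ha : 0 < a) (hab : a ≤ b) :
    IntervalIntegrable (fun x => G x * x⁻¹) volume a b := by
  apply IntervalIntegrable.mul_continuousOn hG.intervalIntegrable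
  intro x hx
  rw [Set.uIcc_of_le hab] at hx
  have hx0 : x ≠ 0 := (lt_of_lt_of_le ha hx.1).ne'
  exact (continuousAt_inv₀ hx0).continuousWithinAt

open MeasureTheory intervalIntegral Set in
lemma dens_id {G : ℝ → ℝ} (hG : Monotone G) {m T : ℝ} (hm : 0 < m) (hmT : m ≤ T) :
    ∫ x in m..T, (G x - G (9 / 10 * x)) * x⁻¹ =
      (∫ x in (9 / 10 * T)..T, G x * x⁻¹) - ∫ x in (9 / 10 * m)..m, G x * x⁻¹ := by
  have hG' : Monotone (fun x => G (9 / 10 * x)) := by
    intro x y hxy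
    apply hG
    show 9 / 10 * x ≤ 9 / 10 * y
    linarith
  have i1 := dens_int hG hm hmT
  have i2 : IntervalIntegrable (fun x => G (9 / 10 * x) * x⁻¹) volume m T :=
    dens_int hG' hm hmT
  have e1 : ∫ x in m..T, (G x - G (9 / 10 * x)) * x⁻¹ =
      (∫ x in m..T, G x * x⁻¹) - ∫ x in m..T, G (9 / 10 * x) * x⁻¹ := by
    rw [← intervalIntegral.integral_sub i1 i2]
    congr 1
    ext x
    ring
  have e2 : ∫ x in m..T, G (9 / 10 * x) * x⁻¹ =
      ∫ x in (9 / 10 * m)..(9 / 10 * T), G x * x⁻¹ := by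
    have h1 := intervalIntegral.integral_comp_mul_left (a := m) (b := T)
      (fun x => G x * x⁻¹) (c := (9 / 10 : ℝ)) (by norm_num)
    have h2 : (fun x : ℝ => G (9 / 10 * x) * (9 / 10 * x)⁻¹) =
        fun x => (9 / 10 : ℝ)⁻¹ * (G (9 / 10 * x) * x⁻¹) := by
      ext x
      rw [mul_inv]
      ring
    rw [h2, intervalIntegral.integral_const_mul, smul_eq_mul] at h1
    exact mul_left_cancel₀ (by norm_num) h1
  have a1 : (∫ x in (9 / 10 * m)..m, G x * x⁻¹) + ∫ x in m..T, G x * x⁻¹ =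
      ∫ x in (9 / 10 * m)..T, G x * x⁻¹ :=
    intervalIntegral.integral_add_adjacent_intervals
      (dens_int hG (by linarith) (by linarith)) i1
  have a2 : (∫ x in (9 / 10 * m)..(9 / 10 * T), G x * x⁻¹) +
      ∫ x in (9 / 10 * T)..T, G x * x⁻¹ = ∫ x in (9 / 10 * m)..T, G x * x⁻¹ :=
    intervalIntegral.integral_add_adjacent_intervals
      (dens_int hG (by linarith) (by linarith)) (dens_int hG (by linarith) (by linarith))
  rw [e1, e2]
  linarith

open MeasureTheory intervalIntegral Set in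
lemma dens_low {G : ℝ → ℝ} (hG : Monotone G) {T : ℝ} (hT : 0 < T)
    (h : ∀ x, 9 / 10 * T ≤ x → x / 2 ≤ G x) :
    T / 20 ≤ ∫ x in (9 / 10 * T)..T, G x * x⁻¹ := by
  have h1 : ∫ _ in (9 / 10 * T)..T, (1 / 2 : ℝ) = T / 20 := by
    rw [intervalIntegral.integral_const, smul_eq_mul]; ring
  rw [← h1]
  apply intervalIntegral.integral_mono_on (by linarith) _ (dens_int hG (by linarith)
    (by linarith))
  · intro x hx
    have hx0 : 0 < x := by have := hx.1; linarith
    have h2 := h x hx.1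
    rw [← div_eq_mul_inv, le_div_iff₀ hx0]
    linarith
  · exact intervalIntegrable_const

open MeasureTheory intervalIntegral Set in
lemma dens_up {G : ℝ → ℝ} (hG : Monotone G) {m C : ℝ} (hm : 1 ≤ m) (hC : 0 ≤ C)
    (h : ∀ x, 0 ≤ x → G x ≤ C * (x + 2)) :
    ∫ x in (9 / 10 * m)..m, G x * x⁻¹ ≤ C * m / 10 + C := by
  have h1 : ∫ _ in (9 / 10 * m)..m, (C * (1 + 20 / (9 * m)) : ℝ) =
      C * m / 10 + C * (2 / 9) := by
    rw [intervalIntegral.integral_const, smul_eq_mul]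
    field_simp
    ring
  have h2 : ∫ x in (9 / 10 * m)..m, G x * x⁻¹ ≤
      ∫ _ in (9 / 10 * m)..m, (C * (1 + 20 / (9 * m)) : ℝ) := by
    apply intervalIntegral.integral_mono_on (by linarith) (dens_int hG (by linarith)
      (by linarith))
    · exact intervalIntegrable_const
    · intro x hx
      have hx1 : 9 / 10 * m ≤ x := hx.1
      have hx0 : 0 < x := by linarith
      have h3 := h x hx0.le
      rw [← div_eq_mul_inv, div_le_iff₀ hx0]
      refine h3.trans ?_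
      have h4 : 2 ≤ 20 / (9 * m) * x := by
        rw [div_mul_eq_mul_div, le_div_iff₀ (by linarith)]
        linarith
      have h5 : C * (1 + 20 / (9 * m)) * x = C * (x + 20 / (9 * m) * x) := by ring
      rw [h5]
      exact mul_le_mul_of_nonneg_left (by linarith) hC
  rw [h1] at h2
  linarith

lemma dens_ceil {t : ℕ} {x : ℝ} (hx : (t : ℝ) < x) :
    (t + 1) - ((t + 1) / 10 + 1) ≤ ⌈9 / 10 * x⌉₊ := by
  rcases Nat.eq_zero_or_pos ((t + 1) - ((t + 1) / 10 + 1)) with h0 | h0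
  · rw [h0]; exact Nat.zero_le _
  · have h1 : ((t + 1) - ((t + 1) / 10 + 1)) - 1 < ⌈9 / 10 * x⌉₊ := by
      rw [Nat.lt_ceil]
      obtain ⟨q, r, hq, hr⟩ : ∃ q r : ℕ, t + 1 = 10 * q + r ∧ r < 10 :=
        ⟨(t + 1) / 10, (t + 1) % 10, (Nat.div_add_mod _ _).symm, Nat.mod_lt _ (by norm_num)⟩
      have h2 : (t + 1) / 10 = q := by omega
      rw [h2] at h0 ⊢
      have h3 : ((t + 1) - (q + 1)) - 1 + q + 1 + 1 = t + 1 := by omega
      generalize ((t + 1) - (q + 1)) - 1 = n' at h3 ⊢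
      have h4 : (n' : ℝ) = (t : ℝ) + 1 - q - 2 := by
        have : ((n' + q + 1 + 1 : ℕ) : ℝ) = ((t + 1 : ℕ) : ℝ) := by rw [h3]
        push_cast at this
        linarith
      rw [h4]
      have h5 : (t : ℝ) + 1 = 10 * q + r := by exact_mod_cast hq
      have h6 : (r : ℝ) ≤ 9 := by exact_mod_cast (by omega : r ≤ 9)
      linarith
    omega

open MeasureTheory intervalIntegral Set in
lemma dens_sum (l : ℕ → ℝ) (hmono : Monotone l) {m T : ℕ} (hm : 1 ≤ m) (hmT : m ≤ T) :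
    ∫ x in (m : ℝ)..T, (l ⌈x⌉₊ - l ⌈9 / 10 * x⌉₊) * x⁻¹ ≤
      ∑ t ∈ Finset.Ico m T, (l (t + 1) - l ((t + 1) - ((t + 1) / 10 + 1))) / t := by
  have hG : Monotone (fun x : ℝ => l ⌈x⌉₊) := hmono.comp Nat.ceil_mono
  have hG' : Monotone (fun x : ℝ => l ⌈9 / 10 * x⌉₊) := by
    intro x y hxy
    apply hmono
    apply Nat.ceil_mono
    linarith
  have hint : ∀ t ∈ Set.Ico m T, IntervalIntegrable
      (fun x : ℝ => (l ⌈x⌉₊ - l ⌈9 / 10 * x⌉₊) * x⁻¹) volume
      ((t : ℕ) : ℝ) ((t + 1 : ℕ) : ℝ) := by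
    intro t ht
    have ht1 : (1 : ℝ) ≤ t := by exact_mod_cast hm.trans ht.1
    have i1 := dens_int hG (a := (t : ℝ)) (b := ((t + 1 : ℕ) : ℝ)) (by linarith)
      (by push_cast; linarith)
    have i2 := dens_int hG' (a := (t : ℝ)) (b := ((t + 1 : ℕ) : ℝ)) (by linarith)
      (by push_cast; linarith)
    refine (i1.sub i2).congr ?_
    intro x _
    ring
  rw [← intervalIntegral.sum_integral_adjacent_intervals_Ico (a := fun n : ℕ => (n : ℝ)) hmT
    hint]
  apply Finset.sum_le_sum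
  intro t ht
  rw [Finset.mem_Ico] at ht
  have ht1 : (1 : ℝ) ≤ t := by exact_mod_cast hm.trans ht.1
  have e1 : ∫ _ in (t : ℝ)..((t + 1 : ℕ) : ℝ),
      ((l (t + 1) - l ((t + 1) - ((t + 1) / 10 + 1))) / t : ℝ) =
      (l (t + 1) - l ((t + 1) - ((t + 1) / 10 + 1))) / t := by
    rw [intervalIntegral.integral_const, smul_eq_mul]
    push_cast
    ring
  rw [← e1]
  apply intervalIntegral.integral_mono_on_of_le_Ioo (by push_cast; linarith)
    (hint t ⟨ht.1, ht.2⟩) intervalIntegrable_const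
  intro x hx
  have hx1 : (t : ℝ) < x := hx.1
  have hx2 : x < ((t + 1 : ℕ) : ℝ) := hx.2
  have hx0 : 0 < x := by linarith
  have h1 : ⌈x⌉₊ = t + 1 := by
    rw [Nat.ceil_eq_iff (by omega)]
    refine ⟨?_, hx2.le⟩
    simpa using hx1
  have h2 := hmono (dens_ceil hx1)
  have h3 : l ((t + 1) - ((t + 1) / 10 + 1)) ≤ l (t + 1) := hmono (Nat.sub_le _ _)
  rw [h1, ← div_eq_mul_inv]
  calc (l (t + 1) - l ⌈9 / 10 * x⌉₊) / x
      ≤ (l (t + 1) - l ((t + 1) - ((t + 1) / 10 + 1))) / x := by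
        apply div_le_div_of_nonneg_right _ hx0.le
        linarith
    _ ≤ (l (t + 1) - l ((t + 1) - ((t + 1) / 10 + 1))) / t := by
        apply div_le_div_of_nonneg_left _ (by linarith) hx1.le
        linarith

theorem density (l : ℕ → ℝ) (hmono : Monotone l) (C : ℝ) (hC : 0 ≤ C) (t0 : ℕ)
    (h1 : ∀ t : ℕ, t0 ≤ t → (t : ℝ) / 2 ≤ l t) (h2 : ∀ t : ℕ, l t ≤ C * (t + 1))
    (h3 : ∀ t : ℕ, 2 ≤ t → l t ≤ l (t - (t / 10 + 1)) + 487 / 1000 * t + C) :
    ∀ᶠ T : ℕ in Filter.atTop, (1001 : ℝ) / 10000 * T ≤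
      (((Finset.range (T + 1)).filter
        (fun t : ℕ => l (t - (t / 10 + 1)) + (t : ℝ) / 1000 ≤ l t)).card : ℝ) := by
  obtain ⟨K, hK⟩ : ∃ K : ℝ, K = 1000 * (C + 1) := ⟨_, rfl⟩
  obtain ⟨M, hM⟩ : ∃ M : ℝ, M = 5000 * (487 / 1000 + C) + 100 := ⟨_, rfl⟩
  have hK0 : 0 < K := by rw [hK]; linarith
  have hM0 : 100 ≤ M := by rw [hM]; linarith
  rw [Filter.eventually_atTop]
  refine ⟨⌈K * (M + 1) + 2 * t0 + 10000 * C⌉₊, fun T hT => ?_⟩
  have hT' : K * (M + 1) + 2 * t0 + 10000 * C ≤ T := (Nat.le_ceil _).trans (by exact_mod_cast hT)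
  have ht00 : (0 : ℝ) ≤ t0 := Nat.cast_nonneg _
  have hKM : 0 < K * (M + 1) := by positivity
  have hT0 : (0 : ℝ) < T := by linarith
  obtain ⟨m, hm⟩ : ∃ m : ℕ, m = ⌊(T : ℝ) / K⌋₊ := ⟨_, rfl⟩
  have hm1 : (m : ℝ) ≤ T / K := by rw [hm]; exact Nat.floor_le (by positivity)
  have hm2 : (T : ℝ) / K < m + 1 := by rw [hm]; exact Nat.lt_floor_add_one _
  have hTK : M + 1 ≤ (T : ℝ) / K := by
    rw [le_div_iff₀ hK0]; linarith
  have hmM : M < m := by linarith
  have hmpos : (0 : ℝ) < m := by linarith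
  have hm1' : 1 ≤ m := by exact_mod_cast (by linarith : (1 : ℝ) ≤ m)
  have hKge : 1 ≤ K := by rw [hK]; linarith
  have hmT : (m : ℝ) ≤ T := hm1.trans (div_le_self hT0.le hKge)
  have hmT' : m ≤ T := by exact_mod_cast hmT
  have hCm : C * m / 10 ≤ T / 10000 := by
    have e1 : (m : ℝ) * K ≤ T := by rwa [le_div_iff₀ hK0] at hm1
    rw [hK] at e1
    have : 0 ≤ (m : ℝ) := hmpos.le
    nlinarith
  -- the integrals
  have hG : Monotone (fun x : ℝ => l ⌈x⌉₊) := hmono.comp Nat.ceil_mono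
  have k1 := dens_id hG (m := (m : ℝ)) (T := (T : ℝ)) hmpos hmT
  have k2 := dens_low hG hT0 (fun x hx => by
    have hx0 : (t0 : ℝ) ≤ x := by linarith
    have e1 : t0 ≤ ⌈x⌉₊ := by exact_mod_cast hx0.trans (Nat.le_ceil x)
    have e2 := h1 _ e1
    have e3 := Nat.le_ceil x
    show x / 2 ≤ l ⌈x⌉₊
    linarith)
  have k3 := dens_up hG (m := (m : ℝ)) (by exact_mod_cast hm1') hC (fun x hx => by
    have e1 := h2 ⌈x⌉₊
    have e2 := (Nat.ceil_lt_add_one hx).le
    show l ⌈x⌉₊ ≤ C * (x + 2)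
    refine e1.trans (mul_le_mul_of_nonneg_left ?_ hC)
    linarith)
  have k4 := dens_sum l hmono hm1' hmT'
  rw [k1] at k4
  -- the sum
  obtain ⟨P, hP⟩ : ∃ P : ℕ → Prop, P = fun t : ℕ => l (t - (t / 10 + 1)) + (t : ℝ) / 1000 ≤ l t :=
    ⟨_, rfl⟩
  classical
  have hcard : (((Finset.Ico m T).filter (fun t => P (t + 1))).card : ℝ) ≤
      (((Finset.range (T + 1)).filter (fun t => P t)).card : ℝ) := by
    have : ((Finset.Ico m T).filter (fun t => P (t + 1))).card ≤
        ((Finset.range (T + 1)).filter (fun t => P t)).card := by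
      apply Finset.card_le_card_of_injOn (fun t => t + 1)
      · intro t ht
        simp only [Finset.coe_filter, Finset.mem_Ico, Finset.mem_range, Set.mem_ofPred_eq] at ht ⊢
        exact ⟨by omega, ht.2⟩
      · intro a _ b _ hab
        simpa using hab
    exact_mod_cast this
  have hinv : (1 : ℝ) / m ≤ 1 / 100 := by
    apply one_div_le_one_div_of_le (by norm_num); linarith
  have hbig : (487 / 1000 + C) / m ≤ 2 / 10000 := by
    rw [div_le_iff₀ hmpos]
    rw [hM] at hmM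
    linarith
  have hterm : ∀ t ∈ Finset.Ico m T, (l (t + 1) - l ((t + 1) - ((t + 1) / 10 + 1))) / t ≤
      101 / 100000 + if P (t + 1) then (4872 / 10000 : ℝ) else 0 := by
    intro t ht
    rw [Finset.mem_Ico] at ht
    have htm : (m : ℝ) ≤ t := by exact_mod_cast ht.1
    have ht0 : (0 : ℝ) < t := by linarith
    have hti : (1 : ℝ) / t ≤ 1 / m := one_div_le_one_div_of_le hmpos htm
    by_cases hp : P (t + 1)
    · rw [if_pos hp]
      have e1 := h3 (t + 1) (by omega)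
      rw [Nat.cast_add, Nat.cast_one] at e1
      have e2 : (l (t + 1) - l ((t + 1) - ((t + 1) / 10 + 1))) / t ≤
          (487 / 1000 * ((t : ℝ) + 1) + C) / t := by
        apply div_le_div_of_nonneg_right _ ht0.le
        linarith
      have e3 : (487 / 1000 * ((t : ℝ) + 1) + C) / t = 487 / 1000 + (487 / 1000 + C) / t := by
        field_simp
        ring
      have e4 : (487 / 1000 + C) / t ≤ (487 / 1000 + C) / m := by
        apply div_le_div_of_nonneg_left _ hmpos htm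
        linarith
      rw [e3] at e2
      linarith
    · rw [if_neg hp, add_zero]
      have e1 : l (t + 1) < l ((t + 1) - ((t + 1) / 10 + 1)) + ((t : ℝ) + 1) / 1000 := by
        have := hp
        rw [hP] at this
        have h9 := not_le.1 this
        rw [Nat.cast_add, Nat.cast_one] at h9
        exact h9
      have e2 : (l (t + 1) - l ((t + 1) - ((t + 1) / 10 + 1))) / t ≤
          (((t : ℝ) + 1) / 1000) / t := by
        apply div_le_div_of_nonneg_right _ ht0.le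
        linarith
      have e3 : (((t : ℝ) + 1) / 1000) / t = 1 / 1000 + (1 / t) / 1000 := by
        field_simp
      rw [e3] at e2
      linarith
  have hsum := Finset.sum_le_sum hterm
  rw [Finset.sum_add_distrib, Finset.sum_const, nsmul_eq_mul, ← Finset.sum_filter,
    Finset.sum_const, nsmul_eq_mul, Nat.card_Ico] at hsum
  have hTm : ((T - m : ℕ) : ℝ) ≤ T := by exact_mod_cast Nat.sub_le _ _
  have hfin : (T : ℝ) / 20 - (T / 10000 + C) ≤ T * (101 / 100000) +
      (((Finset.range (T + 1)).filter (fun t => P t)).card : ℝ) * (4872 / 10000) := by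
    have e1 : ((T - m : ℕ) : ℝ) * (101 / 100000) ≤ T * (101 / 100000) :=
      mul_le_mul_of_nonneg_right hTm (by norm_num)
    have e2 := mul_le_mul_of_nonneg_right hcard (by norm_num : (0 : ℝ) ≤ 4872 / 10000)
    linarith
  have hgoal : (1001 : ℝ) / 10000 * T ≤
      (((Finset.range (T + 1)).filter (fun t => P t)).card : ℝ) := by
    linarith
  have hPP : (Finset.range (T + 1)).filter (fun t => P t) = (Finset.range (T + 1)).filter
        (fun t : ℕ => l (t - (t / 10 + 1)) + (t : ℝ) / 1000 ≤ l t) := by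
    apply Finset.filter_congr
    intro t _
    rw [hP]
  rw [hPP] at hgoal
  convert hgoal using 2

end H48.OR
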