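import Pool.Agent.H48.OR.Basic

/-!
JOB OR-ERDOS. The lower bound of Erdos: `Arrows N t`, `3 ≤ t`, implies `2^(t/2) ≤ N`, in the form `2^t ≤ N^2`.

PROOF. Suppose `N^2 < 2^t` and `Arrows N t`. Count the functions `f : Fin N × Fin N → Bool` (`2^(N^2)` of them; the
colourings `Fin N → Fin N → Bool` by currying). For `S` with `t` elements and a colour `col` the functions with
`f (x, y) = col` for all `x < y` in `S` number `2^(N^2 - t(t-1)/2)`: the pairs `x < y` in `S` are `t(t-1)/2` positions
(`S.offDiag` has `t (t - 1)` elements, half of them with `x < y`; or use `Finset.card_powersetCard`). By `Arrows`, every `f` is one of them for some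
`(S, col)`, so `2^(N^2) ≤ 2 * N.choose t * 2^(N^2 - t(t-1)/2)`, i.e. `2^(t(t-1)/2) ≤ 2 * N.choose t`. But `N.choose t ≤ N^t / t!`
(`Nat.choose_le_pow_div`, or `N.choose t * t! ≤ N^t`), so with `N^(2t) < 2^(t^2)`:
`(2^(t(t-1)/2) * t!)^2 ≤ 4 * N^(2t) < 4 * 2^(t^2)`, i.e. `2^(t^2 - t) * (t!)^2 < 4 * 2^(t^2)`, `(t!)^2 < 2^(t + 2)`; false for
`t ≥ 3` (`36 > 32`, and induction: `(t + 1)^2 ≥ 2`).
-/

set_option autoImplicit false

namespace H48.OR

private theorem er_pairs {N : ℕ} (S : Finset (Fin N)) :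
    2 * ((S ×ˢ S).filter (fun q => q.1 < q.2)).card = S.card * S.card - S.card := by
  have h1 : S.offDiag = (S ×ˢ S).filter (fun q => q.1 < q.2) ∪
      (S ×ˢ S).filter (fun q => q.2 < q.1) := by
    ext q
    simp only [Finset.mem_offDiag, Finset.mem_union, Finset.mem_filter, Finset.mem_product]
    constructor
    · rintro ⟨h1, h2, h3⟩
      rcases lt_or_gt_of_ne h3 with h | h
      · exact Or.inl ⟨⟨h1, h2⟩, h⟩
      · exact Or.inr ⟨⟨h1, h2⟩, h⟩
    · rintro (⟨⟨h1, h2⟩, h⟩ | ⟨⟨h1, h2⟩, h⟩)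
      · exact ⟨h1, h2, h.ne⟩
      · exact ⟨h1, h2, h.ne'⟩
  have h2 : ((S ×ˢ S).filter (fun q => q.2 < q.1)).card =
      ((S ×ˢ S).filter (fun q => q.1 < q.2)).card := by
    refine Finset.card_bij (fun q _ => q.swap) ?_ ?_ ?_
    · intro q hq
      simp only [Finset.mem_filter, Finset.mem_product] at hq
      simp only [Finset.mem_filter, Finset.mem_product, Prod.fst_swap, Prod.snd_swap]
      exact ⟨⟨hq.1.2, hq.1.1⟩, hq.2⟩
    · intro q _ q' _ h
      exact Prod.swap_injective h
    · intro q hq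
      simp only [Finset.mem_filter, Finset.mem_product] at hq
      refine ⟨q.swap, ?_, Prod.swap_swap q⟩
      simp only [Finset.mem_filter, Finset.mem_product, Prod.fst_swap, Prod.snd_swap]
      exact ⟨⟨hq.1.2, hq.1.1⟩, hq.2⟩
  have h3 : Disjoint ((S ×ˢ S).filter (fun q => q.1 < q.2))
      ((S ×ˢ S).filter (fun q => q.2 < q.1)) := by
    rw [Finset.disjoint_filter]
    intro q _ h h'
    exact lt_asymm h h'
  have h4 := Finset.offDiag_card S
  rw [h1, Finset.card_union_of_disjoint h3, h2] at h4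
  omega

private theorem er_count {α : Type} [Fintype α] [DecidableEq α] (P : Finset α) (col : Bool) :
    (Finset.univ.filter (fun f : α → Bool => ∀ q ∈ P, f q = col)).card * 2 ^ P.card =
      2 ^ Fintype.card α := by
  have h1 : (Finset.univ.filter (fun f : α → Bool => ∀ q ∈ P, f q = col)) =
      Fintype.piFinset (fun q => if q ∈ P then {col} else Finset.univ) := by
    ext f
    simp only [Finset.mem_filter, Finset.mem_univ, true_and, Fintype.mem_piFinset]
    constructor
    · intro h q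
      by_cases hq : q ∈ P
      · rw [if_pos hq, Finset.mem_singleton]
        exact h q hq
      · rw [if_neg hq]
        exact Finset.mem_univ _
    · intro h q hq
      have := h q
      rw [if_pos hq, Finset.mem_singleton] at this
      exact this
  rw [h1, Fintype.card_piFinset]
  have h2 : ∀ q : α, (if q ∈ P then ({col} : Finset Bool) else Finset.univ).card =
      if q ∈ P then 1 else 2 := by
    intro q
    split_ifs
    · simp
    · simp
  rw [Finset.prod_congr rfl (fun q _ => h2 q), Finset.prod_ite, Finset.prod_const_one, one_mul,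
    Finset.prod_const, ← pow_add]
  congr 1
  have h3 : (Finset.univ.filter (fun q => q ∉ P)) = Pᶜ := by
    ext q; simp
  rw [h3, Finset.card_compl_add_card]

private theorem er_fact {t : ℕ} (ht : 3 ≤ t) : 2 ^ (t + 2) ≤ (t.factorial) ^ 2 := by
  induction t, ht using Nat.le_induction with
  | base => decide
  | succ t ht ih =>
    rw [Nat.factorial_succ, mul_pow]
    have h1 : 2 ≤ (t + 1) ^ 2 := by nlinarith
    calc 2 ^ (t + 1 + 2) = 2 * 2 ^ (t + 2) := by ring
      _ ≤ (t + 1) ^ 2 * (t.factorial) ^ 2 := Nat.mul_le_mul h1 ih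

theorem erdos_lower {N t : ℕ} (ht : 3 ≤ t) (h : Arrows N t) : 2 ^ t ≤ N ^ 2 := by
  classical
  by_contra hcon
  push Not at hcon
  -- union bound
  have hcov : (Finset.univ : Finset (Fin N × Fin N → Bool)) ⊆
      ((Finset.powersetCard t (Finset.univ : Finset (Fin N))) ×ˢ (Finset.univ : Finset Bool)).biUnion
        (fun Sc => Finset.univ.filter (fun f : Fin N × Fin N → Bool =>
          ∀ q ∈ (Sc.1 ×ˢ Sc.1).filter (fun q => q.1 < q.2), f q = Sc.2)) := by
    intro f _
    obtain ⟨S, hS, col, hcol⟩ := h (fun x y => f (x, y))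
    rw [Finset.mem_biUnion]
    refine ⟨(S, col), ?_, ?_⟩
    · rw [Finset.mem_product, Finset.mem_powersetCard]
      exact ⟨⟨Finset.subset_univ _, hS⟩, Finset.mem_univ _⟩
    · rw [Finset.mem_filter]
      refine ⟨Finset.mem_univ _, ?_⟩
      rintro ⟨x, y⟩ hq
      rw [Finset.mem_filter, Finset.mem_product] at hq
      exact hcol x hq.1.1 y hq.1.2 hq.2
  have hcard := (Finset.card_le_card hcov).trans Finset.card_biUnion_le
  rw [Finset.card_univ, Fintype.card_fun, Fintype.card_bool] at hcard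
  -- every set has the same size
  have hk : ∀ Sc ∈ (Finset.powersetCard t (Finset.univ : Finset (Fin N))) ×ˢ (Finset.univ : Finset Bool),
      (Finset.univ.filter (fun f : Fin N × Fin N → Bool =>
          ∀ q ∈ (Sc.1 ×ˢ Sc.1).filter (fun q => q.1 < q.2), f q = Sc.2)).card *
        2 ^ ((t * t - t) / 2) = 2 ^ (Fintype.card (Fin N × Fin N)) := by
    intro Sc hSc
    rw [Finset.mem_product, Finset.mem_powersetCard] at hSc
    have h1 := er_pairs Sc.1
    rw [hSc.1.2] at h1
    have h2 : (t * t - t) / 2 = ((Sc.1 ×ˢ Sc.1).filter (fun q => q.1 < q.2)).card := by omega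
    rw [h2]
    exact er_count _ _
  have hmul := Nat.mul_le_mul_right (2 ^ ((t * t - t) / 2)) hcard
  rw [Finset.sum_mul, Finset.sum_congr rfl hk, Finset.sum_const, Finset.card_product,
    Finset.card_powersetCard, Finset.card_univ, Finset.card_univ, Fintype.card_fin,
    Fintype.card_bool, smul_eq_mul, mul_comm (2 ^ Fintype.card (Fin N × Fin N))] at hmul
  have hpow : 2 ^ ((t * t - t) / 2) ≤ N.choose t * 2 :=
    Nat.le_of_mul_le_mul_right hmul (by positivity)
  -- numerical contradiction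
  have hch : N.choose t * t.factorial ≤ N ^ t := by
    rw [mul_comm, ← Nat.descFactorial_eq_factorial_mul_choose]
    exact Nat.descFactorial_le_pow N t
  have heven : 2 * ((t * t - t) / 2) = t * t - t := by
    have h1 : t * t - t = t * (t - 1) := by
      rw [Nat.mul_sub, mul_one]
    rw [h1]
    exact Nat.mul_div_cancel' (Nat.even_mul_pred_self t).two_dvd
  have h1 : 2 ^ ((t * t - t) / 2) * t.factorial ≤ 2 * N ^ t := by
    calc 2 ^ ((t * t - t) / 2) * t.factorial ≤ N.choose t * 2 * t.factorial :=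
          Nat.mul_le_mul_right _ hpow
      _ = 2 * (N.choose t * t.factorial) := by ring
      _ ≤ 2 * N ^ t := Nat.mul_le_mul_left _ hch
  have h2 : (2 ^ ((t * t - t) / 2) * t.factorial) ^ 2 ≤ (2 * N ^ t) ^ 2 := Nat.pow_le_pow_left h1 2
  have h3 : (2 ^ ((t * t - t) / 2) * t.factorial) ^ 2 = 2 ^ (t * t - t) * t.factorial ^ 2 := by
    rw [mul_pow, ← pow_mul, mul_comm ((t * t - t) / 2) 2, heven]
  have h4 : (2 * N ^ t) ^ 2 = 4 * (N ^ 2) ^ t := by ring
  have h5 : (N ^ 2) ^ t < (2 ^ t) ^ t := Nat.pow_lt_pow_left hcon (by omega)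
  have h6 := er_fact ht
  have h7 : 2 ^ (t * t - t) * 2 ^ (t + 2) = 4 * (2 ^ t) ^ t := by
    rw [← pow_add, ← pow_mul]
    have h8 : t * t - t + (t + 2) = t * t + 2 := by
      have : t ≤ t * t := Nat.le_mul_self t
      omega
    rw [h8, pow_add]
    ring
  have h9 : 2 ^ (t * t - t) * 2 ^ (t + 2) ≤ 2 ^ (t * t - t) * t.factorial ^ 2 :=
    Nat.mul_le_mul_left _ h6
  rw [h3, h4] at h2
  omega

end H48.OR
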