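import Pool.Agent.H48.OR.Defs

/-!
JOB OR-EXPOSE. Builder exposes all edges of a finite set, whatever the colours are.

PROOFS. `cw_of_mono`: cases on `n`. `cw_succ`: induction on `n` generalising `P` (`n = 0`: left; `n + 1`: the same edge).
`cw_le`: induction. `cw_expose`: induction on the finset `E` (`Finset.induction_on`) generalising `P`: `E = ∅`: the union is `P`.
`E = insert e E'` (`e ∉ E'`): Builder plays `e`, the answer is `b`; the new position is `P' = insert (e, b) P`; the edges of `E'`
are still fresh in `P'` as `e ∉ E'`; for `f`, `P' ∪ {(e', f e') | e' ∈ E'} = P ∪ {(e', g e') | e' ∈ E}` with `g = Function.update f e b`.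
`n + (insert e E').card = (n + E'.card) + 1`.
`cw_star`: `E = W.image (fun w => (min v w, max v w))`; this map is injective on `W` since `v ∉ W`; for given `F : ℕ × ℕ → Bool` use
`H (fun w => F (min v w, max v w))`. `cw_clique`: `E = ((W ×ˢ W).filter (fun p => p.1 < p.2))`, whose cardinality is at most (in fact equal to)
`W.card.choose 2` (use `cw_le` to have only to prove `≤`; e.g. the map `p ↦ {p.1, p.2}` is injective on `E` with values in
`W.powersetCard 2`, `Finset.card_powersetCard`), and `min u w = u`, `max u w = w` for `u < w`.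
-/

set_option autoImplicit false

namespace H48.OR

theorem cw_of_mono {t n : ℕ} {P : Pos} (h : Mono t P) : CW t n P := by
  cases n with
  | zero => exact h
  | succ n => exact Or.inl h

theorem cw_succ {t n : ℕ} {P : Pos} (h : CW t n P) : CW t (n + 1) P := by
  induction n generalizing P with
  | zero => exact Or.inl h
  | succ n ih =>
    rcases h with h | ⟨e, he, hf, h⟩
    · exact Or.inl h
    · exact Or.inr ⟨e, he, hf, fun b => ih (h b)⟩

theorem cw_le {t n m : ℕ} {P : Pos} (hnm : n ≤ m) (h : CW t n P) : CW t m P := by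
  induction hnm with
  | refl => exact h
  | step _ ih => exact cw_succ ih

theorem cw_expose {t n : ℕ} (E : Finset (ℕ × ℕ)) (P : Pos) (hE : ∀ e ∈ E, e.1 < e.2)
    (hf : ∀ e ∈ E, ∀ b, (e, b) ∉ P)
    (H : ∀ f : ℕ × ℕ → Bool, CW t n (P ∪ {z | ∃ e ∈ E, z = (e, f e)})) :
    CW t (n + E.card) P := by
  induction E using Finset.induction_on generalizing P with
  | empty =>
    have h := H (fun _ => true)
    have h2 : (P ∪ {z | ∃ e ∈ (∅ : Finset (ℕ × ℕ)), z = (e, (fun _ : ℕ × ℕ => true) e)}) = P := by
      ext z
      simp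
    rw [h2] at h
    simpa using h
  | insert e E' he ih =>
    rw [Finset.card_insert_of_notMem he, ← add_assoc]
    refine Or.inr ⟨e, hE e (Finset.mem_insert_self e E'), hf e (Finset.mem_insert_self e E'), ?_⟩
    intro b
    apply ih
    · intro e' he'
      exact hE e' (Finset.mem_insert_of_mem he')
    · intro e' he' b' hmem
      rcases hmem with hmem | hmem
      · have h1 : e' = e := congrArg Prod.fst hmem
        exact he (h1 ▸ he')
      · exact hf e' (Finset.mem_insert_of_mem he') b' hmem
    · intro f
      have h := H (Function.update f e b)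
      have h2 : (P ∪ {z | ∃ e' ∈ insert e E', z = (e', Function.update f e b e')}) =
          (insert (e, b) P ∪ {z | ∃ e' ∈ E', z = (e', f e')}) := by
        ext z
        constructor
        · rintro (hz | ⟨e', he', rfl⟩)
          · exact Or.inl (Or.inr hz)
          · rcases Finset.mem_insert.1 he' with rfl | he'
            · left
              left
              simp
            · right
              refine ⟨e', he', ?_⟩
              have hne : e' ≠ e := fun h => he (h ▸ he')
              simp [Function.update_of_ne hne]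
        · rintro ((hz | hz) | ⟨e', he', rfl⟩)
          · right
            refine ⟨e, Finset.mem_insert_self e E', ?_⟩
            rw [hz]
            simp
          · exact Or.inl hz
          · right
            refine ⟨e', Finset.mem_insert_of_mem he', ?_⟩
            have hne : e' ≠ e := fun h => he (h ▸ he')
            simp [Function.update_of_ne hne]
      rw [h2] at h
      exact h

theorem cw_star {t n : ℕ} (P : Pos) (v : ℕ) (W : Finset ℕ) (hv : v ∉ W)
    (hf : ∀ w ∈ W, ∀ b, ¬ Col P b v w)
    (H : ∀ f : ℕ → Bool, CW t n (P ∪ {z | ∃ w ∈ W, z = ((min v w, max v w), f w)})) :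
    CW t (n + W.card) P := by
  have hcard : (W.image (fun w => (min v w, max v w))).card ≤ W.card := Finset.card_image_le
  refine cw_le (Nat.add_le_add_left hcard n) ?_
  apply cw_expose
  · intro e he
    obtain ⟨w, hw, rfl⟩ := Finset.mem_image.1 he
    have hne : v ≠ w := fun h => hv (h ▸ hw)
    exact min_lt_max.2 hne
  · intro e he b
    obtain ⟨w, hw, rfl⟩ := Finset.mem_image.1 he
    exact hf w hw b
  · intro F
    have h := H (fun w => F (min v w, max v w))
    have h2 : (P ∪ {z | ∃ w ∈ W, z = ((min v w, max v w), (fun w => F (min v w, max v w)) w)}) =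
        (P ∪ {z | ∃ e ∈ W.image (fun w => (min v w, max v w)), z = (e, F e)}) := by
      ext z
      constructor
      · rintro (hz | ⟨w, hw, rfl⟩)
        · exact Or.inl hz
        · exact Or.inr ⟨(min v w, max v w), Finset.mem_image.2 ⟨w, hw, rfl⟩, rfl⟩
      · rintro (hz | ⟨e, he, rfl⟩)
        · exact Or.inl hz
        · obtain ⟨w, hw, rfl⟩ := Finset.mem_image.1 he
          exact Or.inr ⟨w, hw, rfl⟩
    rw [h2] at h
    exact h

theorem cw_clique {t n : ℕ} (P : Pos) (W : Finset ℕ)
    (hf : ∀ u ∈ W, ∀ w ∈ W, u ≠ w → ∀ b, ¬ Col P b u w)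
    (H : ∀ f : ℕ → ℕ → Bool, CW t n (P ∪ {z | ∃ u ∈ W, ∃ w ∈ W, u < w ∧ z = ((u, w), f u w)})) :
    CW t (n + W.card.choose 2) P := by
  have hcard : ((W ×ˢ W).filter (fun p => p.1 < p.2)).card ≤ W.card.choose 2 := by
    rw [← Finset.card_powersetCard 2 W]
    apply Finset.card_le_card_of_injOn (fun p => ({p.1, p.2} : Finset ℕ))
    · intro p hp
      obtain ⟨hp1, hp2⟩ := Finset.mem_filter.1 (Finset.mem_coe.1 hp)
      obtain ⟨h1, h2⟩ := Finset.mem_product.1 hp1
      apply Finset.mem_coe.2
      rw [Finset.mem_powersetCard]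
      constructor
      · intro x hx
        simp only [Finset.mem_insert, Finset.mem_singleton] at hx
        rcases hx with rfl | rfl
        · exact h1
        · exact h2
      · exact Finset.card_pair hp2.ne
    · intro p hp q hq hpq
      obtain ⟨_, hp2⟩ := Finset.mem_filter.1 (Finset.mem_coe.1 hp)
      obtain ⟨_, hq2⟩ := Finset.mem_filter.1 (Finset.mem_coe.1 hq)
      simp only at hpq
      have hp1q : p.1 ∈ ({q.1, q.2} : Finset ℕ) := by rw [← hpq]; simp
      have hp2q : p.2 ∈ ({q.1, q.2} : Finset ℕ) := by rw [← hpq]; simp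
      have hq1p : q.1 ∈ ({p.1, p.2} : Finset ℕ) := by rw [hpq]; simp
      have hq2p : q.2 ∈ ({p.1, p.2} : Finset ℕ) := by rw [hpq]; simp
      simp only [Finset.mem_insert, Finset.mem_singleton] at hp1q hp2q hq1p hq2p
      apply Prod.ext <;> omega
  refine cw_le (Nat.add_le_add_left hcard n) ?_
  apply cw_expose
  · intro e he
    exact (Finset.mem_filter.1 he).2
  · intro e he b hmem
    obtain ⟨h1, h2⟩ := Finset.mem_filter.1 he
    obtain ⟨h3, h4⟩ := Finset.mem_product.1 h1
    apply hf e.1 h3 e.2 h4 h2.ne b
    unfold Col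
    rw [min_eq_left h2.le, max_eq_right h2.le]
    exact hmem
  · intro F
    have h := H (fun u w => F (u, w))
    have h2 : (P ∪ {z | ∃ u ∈ W, ∃ w ∈ W, u < w ∧ z = ((u, w), (fun u w => F (u, w)) u w)}) =
        (P ∪ {z | ∃ e ∈ (W ×ˢ W).filter (fun p => p.1 < p.2), z = (e, F e)}) := by
      ext z
      constructor
      · rintro (hz | ⟨u, hu, w, hw, huw, rfl⟩)
        · exact Or.inl hz
        · exact Or.inr ⟨(u, w), Finset.mem_filter.2 ⟨Finset.mem_product.2 ⟨hu, hw⟩, huw⟩, rfl⟩
      · rintro (hz | ⟨e, he, rfl⟩)
        · exact Or.inl hz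
        · obtain ⟨h1, h2⟩ := Finset.mem_filter.1 he
          obtain ⟨h3, h4⟩ := Finset.mem_product.1 h1
          exact Or.inr ⟨e.1, h3, e.2, h4, h2, rfl⟩
    rw [h2] at h
    exact h

end H48.OR
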