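import Pool.Agent.H48.OR.Defs

/-!
JOB OR-GAME. A winning tree gives a strategy function.

PROOF. Choose a next edge for every `k` and `P`: `edge k P : ℕ × ℕ` is some `e` with `e.1 < e.2`, `∀ b, (e, b) ∉ P`,
`∀ b, CW t k (insert (e, b) P)` if such an `e` exists, and `(0, 1)` otherwise (classical choice).
Define on lists of colours in REVERSED order (last colour first) the positions
`run [] = ∅`, `run (b :: l) = insert (edge (n - l.length - 1) (run l), b) (run l)`
and `B l = edge (n - l.length - 1) (run l.reverse)`. For `c : ℕ → Bool` let `P i = run ((List.map c (List.range i)).reverse)`; then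
`P 0 = ∅` and `P (i + 1) = insert (e i, c i) (P i)` with `e i = B (List.map c (List.range i)) = edge (n - i - 1) (P i)`
(`List.range_succ`, `List.map_append`, `List.reverse_append`).
Claim: for `i ≤ n`, if `¬ Mono t (P j)` for all `j < i` then `CW t (n - i) (P i)`: induction on `i`: the step uses
`n - i = (n - i - 1) + 1`, the definition of `CW` and the choice of `edge`. In particular some `m ≤ n` has `Mono t (P m)` (for `i = n`:
`CW t 0 = Mono t`). Let `m` be the least one (`Nat.find`). For all `i < m`: `¬ Mono t (P i)` and `CW t (n - i) (P i)`, so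
`(e i).1 < (e i).2` and `(e i, b) ∉ P i` for all `b`. Since `(e j, c j) ∈ P i` for `j < i`, `e i ≠ e j` for `j < i < m`; and the
swapped equality is impossible as `(e i).1 < (e i).2`, `(e j).1 < (e j).2`. Finally `((x, y), b) ∈ P m` implies that there is
`i < m` with `e i = (x, y)` and `c i = b` (induction on `m`), so `Mono t (P m)` gives the required set `S`:
`Col (P m) b x y` means `((min x y, max x y), b) ∈ P m`; distinguish `x ≤ y` and `y ≤ x`.
-/

set_option autoImplicit false

namespace H48.OR

open Classical in
/-- the next edge chosen by Builder -/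
noncomputable def edge (t k : ℕ) (P : Pos) : ℕ × ℕ :=
  if h : ∃ e : ℕ × ℕ, e.1 < e.2 ∧ (∀ b, (e, b) ∉ P) ∧ ∀ b : Bool, CW t k (insert (e, b) P)
  then h.choose else (0, 1)

theorem edge_spec {t k : ℕ} {P : Pos} (h : CW t (k + 1) P) (h0 : ¬ Mono t P) :
    (edge t k P).1 < (edge t k P).2 ∧ (∀ b, (edge t k P, b) ∉ P) ∧
      ∀ b : Bool, CW t k (insert (edge t k P, b) P) := by
  have h1 : ∃ e : ℕ × ℕ, e.1 < e.2 ∧ (∀ b, (e, b) ∉ P) ∧
      ∀ b : Bool, CW t k (insert (e, b) P) := by
    rcases h with h | h
    · exact absurd h h0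
    · exact h
  unfold edge
  rw [dif_pos h1]
  exact h1.choose_spec

/-- the position after a list of colours (last colour first) -/
noncomputable def runP (t n : ℕ) : List Bool → Pos
  | [] => ∅
  | b :: l => insert (edge t (n - l.length - 1) (runP t n l), b) (runP t n l)

/-- Builder's strategy function -/
noncomputable def strB (t n : ℕ) (l : List Bool) : ℕ × ℕ :=
  edge t (n - l.length - 1) (runP t n l.reverse)

/-- the position after `i` turns against the colours `c` -/
noncomputable def posn (t n : ℕ) (c : ℕ → Bool) (i : ℕ) : Pos :=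
  runP t n (List.map c (List.range i)).reverse

theorem posn_zero (t n : ℕ) (c : ℕ → Bool) : posn t n c 0 = ∅ := rfl

theorem strB_eq (t n : ℕ) (c : ℕ → Bool) (i : ℕ) :
    strB t n (List.map c (List.range i)) = edge t (n - i - 1) (posn t n c i) := by
  unfold strB posn
  rw [List.length_map, List.length_range]

theorem posn_succ (t n : ℕ) (c : ℕ → Bool) (i : ℕ) :
    posn t n c (i + 1) = insert (strB t n (List.map c (List.range i)), c i) (posn t n c i) := by
  rw [strB_eq]
  unfold posn
  rw [List.range_succ, List.map_append, List.reverse_append]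
  simp only [List.map_cons, List.map_nil, List.reverse_cons, List.reverse_nil, List.nil_append,
    List.singleton_append]
  rw [runP, List.length_reverse, List.length_map, List.length_range]

theorem posn_cw {t n : ℕ} (h : CW t n ∅) (c : ℕ → Bool) :
    ∀ i : ℕ, i ≤ n → (∀ j < i, ¬ Mono t (posn t n c j)) → CW t (n - i) (posn t n c i) := by
  intro i
  induction i with
  | zero => intro _ _; exact h
  | succ i ih =>
    intro hi hj
    have h1 := ih (by omega) (fun j hj' => hj j (by omega))
    have h2 := hj i (by omega)
    have h3 : n - i = (n - i - 1) + 1 := by omega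
    rw [h3] at h1
    have h4 := (edge_spec h1 h2).2.2 (c i)
    rw [posn_succ, strB_eq]
    have h5 : n - (i + 1) = n - i - 1 := by omega
    rw [h5]
    exact h4

theorem mem_posn {t n : ℕ} (c : ℕ → Bool) (m : ℕ) (e : ℕ × ℕ) (b : Bool)
    (h : (e, b) ∈ posn t n c m) :
    ∃ i < m, strB t n (List.map c (List.range i)) = e ∧ c i = b := by
  induction m with
  | zero => exact absurd h (by rw [posn_zero]; exact Set.notMem_empty _)
  | succ m ih =>
    rw [posn_succ] at h
    rcases h with h | h
    · exact ⟨m, by omega, (Prod.ext_iff.1 h).1.symm, (Prod.ext_iff.1 h).2.symm⟩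
    · obtain ⟨i, hi, h1⟩ := ih h
      exact ⟨i, by omega, h1⟩

theorem posn_mem {t n : ℕ} (c : ℕ → Bool) {j m : ℕ} (h : j < m) :
    (strB t n (List.map c (List.range j)), c j) ∈ posn t n c m := by
  induction m with
  | zero => omega
  | succ m ih =>
    rw [posn_succ]
    rcases Nat.lt_succ_iff_lt_or_eq.1 h with h | h
    · exact Or.inr (ih h)
    · subst h
      exact Or.inl rfl

theorem forces_of_cw {t n : ℕ} (h : CW t n ∅) : Forces t n := by
  classical
  refine ⟨strB t n, fun c => ?_⟩
  have hex : ∃ m, m ≤ n ∧ Mono t (posn t n c m) := by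
    by_contra hcon
    push Not at hcon
    have h1 := posn_cw h c n le_rfl (fun j hj => hcon j hj.le)
    rw [Nat.sub_self] at h1
    exact hcon n le_rfl h1
  let m := Nat.find hex
  obtain ⟨hmn, hmono⟩ : m ≤ n ∧ Mono t (posn t n c m) := Nat.find_spec hex
  have hmin : ∀ j < m, ¬ Mono t (posn t n c j) := by
    intro j hj hM
    exact Nat.find_min hex hj ⟨by omega, hM⟩
  have hspec : ∀ i < m, (strB t n (List.map c (List.range i))).1 <
      (strB t n (List.map c (List.range i))).2 ∧
      ∀ b, (strB t n (List.map c (List.range i)), b) ∉ posn t n c i := by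
    intro i hi
    have h1 := posn_cw h c i (by omega) (fun j hj => hmin j (by omega))
    have h3 : n - i = (n - i - 1) + 1 := by omega
    rw [h3] at h1
    have h4 := edge_spec h1 (hmin i hi)
    rw [strB_eq]
    exact ⟨h4.1, h4.2.1⟩
  have hne : ∀ i < m, ∀ j < i, strB t n (List.map c (List.range i)) ≠
      strB t n (List.map c (List.range j)) := by
    intro i hi j hj heq
    have h1 := posn_mem (t := t) (n := n) c hj
    rw [← heq] at h1
    exact (hspec i hi).2 _ h1
  refine ⟨m, hmn, fun i hi => (hspec i hi).1.ne, ?_, ?_⟩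
  · intro i hi j hj hij
    rintro (⟨h1, h2⟩ | ⟨h1, h2⟩)
    · have h3 : strB t n (List.map c (List.range i)) = strB t n (List.map c (List.range j)) :=
        Prod.ext h1 h2
      rcases Nat.lt_or_gt_of_ne hij with hlt | hlt
      · exact hne j hj i hlt h3.symm
      · exact hne i hi j hlt h3
    · have h3 := (hspec i hi).1
      have h4 := (hspec j hj).1
      rw [h1, h2] at h3
      omega
  · obtain ⟨S, hS, b, hb⟩ := hmono
    refine ⟨S, hS, b, ?_⟩
    intro x hx y hy hxy
    have h1 := hb x hx y hy hxy
    obtain ⟨i, hi, h2, h3⟩ := mem_posn c m _ _ h1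
    refine ⟨i, hi, ?_, h3⟩
    rw [h2]
    rcases le_total x y with hle | hle
    · left
      simp [hle]
    · right
      simp [hle]

end H48.OR
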