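import Pool.Agent.H48.OR.Basic
import Pool.Agent.H48.OR.Expose
import Pool.Agent.H48.OR.Game

/-!
JOB OR-STRAT. Builder's strategy.

PROOF of `strat_final`. Choose `W ⊆ V` with `W.card = M` (`Finset.exists_subset_card_eq`) and use `cw_clique` (`n = 0`); the position is then
`P' ⊇ P` with `Col P' (f u w) u w` for `u < w` in `W`. `Arrows.finset` gives a one-coloured `S ⊆ W`, `S.card = t - y`. If the colour is
`true`: take `S' ⊆ S` with `S'.card = t - A.card` (`≤ t - y`), and `A ∪ S'` has `t` elements (`disjA`) and is red in `P'`: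
pairs in `A` by `red`, between `A` and `S'` by `redV` (and symmetry of `Col`: `min_comm`, `max_comm`). Colour `false`: the same with `B`.
(`Col` is monotone in `P`.)
PROOF of `strat_step`. `W = V.erase v`; `cw_star` for `W` (`fresh`). For `f` let `P'` be the new position. It is enough to check that
`State P' (insert v A) B {w ∈ W | f w = true}` and `State P' A (insert v B) {w ∈ W | f w = false}` hold, and
that the cardinalities of the two sets add up to `V.card - 1`. `fresh`: the new edges of `P'` contain `v`, and `v ∉ W`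
(an edge `(min u w, max u w)` with `u, w ∈ W` is not of the form `(min v w', max v w')`: its two endpoints are in `W`).
PROOF of `strat`, by induction on `k`. If `A.card = t`: `Mono t P` by `red`: `cw_of_mono`; the same if `B.card = t`. If `y ≤ A.card` and `y ≤ B.card`: by `Phi_lower`
`M + 1 ≤ Phi`, so `M ≤ V.card`; `strat_final` and `cw_le`. Otherwise (as in `static_aux`) `V` is nonempty: if `V.card = 0` then `Phi ≤ 1`, so `M = 0`,
which contradicts `hM0`. Take `v ∈ V`, `strat_step` with `n = k' * N + M.choose 2` (`k = k' + 1`); `V.card - 1 ≤ N`; if both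
`Phi K (A.card+1) B.card - 1 ≤ R.card` and `Phi K A.card (B.card+1) - 1 ≤ Bl.card` fail then
`V.card - 1 = R.card + Bl.card < Phi - 2` (`Phi_step`), contradiction. `R.card, Bl.card ≤ N`. (`k = 0` is impossible in this case as
`A.card < t`, `B.card < t`.)
PROOF of `onlineRamsey_le`: `K = (M + 1) 9^y (9/8)^t`, `N = ⌈2 K⌉₊`, `V = Finset.range N`, `A = B = ∅`, `P = ∅`, `k = 2 t`;
`Phi K 0 0 = 2 K ≤ N`; `forces_of_cw`, `Nat.sInf_le`.
-/

set_option autoImplicit false

namespace H48.OR

theorem col_mono {P P' : Pos} (h : P ⊆ P') {b : Bool} {x y : ℕ} (hc : Col P b x y) :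
    Col P' b x y := h hc

theorem col_symm {P : Pos} {b : Bool} {x y : ℕ} (hc : Col P b x y) : Col P b y x := by
  unfold Col at hc ⊢
  rw [min_comm, max_comm]
  exact hc

theorem mono_of_union {t : ℕ} {P : Pos} {b : Bool} {A S : Finset ℕ}
    (hA : ∀ x ∈ A, ∀ y ∈ A, x ≠ y → Col P b x y) (hS : ∀ x ∈ S, ∀ y ∈ S, x ≠ y → Col P b x y)
    (hAS : ∀ x ∈ A, ∀ y ∈ S, Col P b x y) (hd : Disjoint A S) (hc : A.card + S.card = t) :
    Mono t P := by
  refine ⟨A ∪ S, ?_, b, ?_⟩
  · rw [Finset.card_union_of_disjoint hd, hc]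
  · intro x hx y hy hxy
    rcases Finset.mem_union.1 hx with hx | hx <;> rcases Finset.mem_union.1 hy with hy | hy
    · exact hA x hx y hy hxy
    · exact hAS x hx y hy
    · exact col_symm (hAS y hy x hx)
    · exact hS x hx y hy hxy

theorem strat_final {t y M : ℕ} (hM : Arrows M (t - y)) {P : Pos} {A B V : Finset ℕ}
    (hS : State P A B V) (hA : y ≤ A.card) (hB : y ≤ B.card) (hAt : A.card ≤ t) (hBt : B.card ≤ t)
    (hV : M ≤ V.card) : CW t (M.choose 2) P := by
  obtain ⟨W, hWV, hWc⟩ := Finset.exists_subset_card_eq hV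
  have key := cw_clique (t := t) (n := 0) P W
    (fun u hu w hw huw b => hS.fresh u (hWV hu) w (hWV hw) huw b) ?_
  · rw [hWc, zero_add] at key
    exact key
  intro f
  change Mono t _
  obtain ⟨S, hSW, hSc, col, hcol⟩ := Arrows.finset hM W hWc.ge f
  set P' : Pos := P ∪ {z | ∃ u ∈ W, ∃ w ∈ W, u < w ∧ z = ((u, w), f u w)} with hP'
  have hPP' : P ⊆ P' := Set.subset_union_left
  have hcl : ∀ x ∈ S, ∀ z ∈ S, x ≠ z → Col P' col x z := by
    have h1 : ∀ x ∈ S, ∀ z ∈ S, x < z → Col P' col x z := by
      intro x hx z hz hxz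
      unfold Col
      rw [min_eq_left hxz.le, max_eq_right hxz.le, hP']
      right
      exact ⟨x, hSW hx, z, hSW hz, hxz, by rw [hcol x hx z hz hxz]⟩
    intro x hx z hz hxz
    rcases lt_or_gt_of_ne hxz with h | h
    · exact h1 x hx z hz h
    · exact col_symm (h1 z hz x hx h)
  cases col with
  | true =>
    obtain ⟨S', hS', hc'⟩ := Finset.exists_subset_card_eq
      (show t - A.card ≤ S.card by rw [hSc]; omega)
    refine mono_of_union (b := true) (A := A) (S := S')
      (fun x hx z hz hxz => col_mono hPP' (hS.red x hx z hz hxz))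
      (fun x hx z hz hxz => hcl x (hS' hx) z (hS' hz) hxz)
      (fun x hx z hz => col_mono hPP' (hS.redV x hx z (hWV (hSW (hS' hz))))) ?_ (by omega)
    exact Finset.disjoint_of_subset_right (fun z hz => hWV (hSW (hS' hz))) hS.disjA
  | false =>
    obtain ⟨S', hS', hc'⟩ := Finset.exists_subset_card_eq
      (show t - B.card ≤ S.card by rw [hSc]; omega)
    refine mono_of_union (b := false) (A := B) (S := S')
      (fun x hx z hz hxz => col_mono hPP' (hS.blue x hx z hz hxz))
      (fun x hx z hz hxz => hcl x (hS' hx) z (hS' hz) hxz)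
      (fun x hx z hz => col_mono hPP' (hS.blueV x hx z (hWV (hSW (hS' hz))))) ?_ (by omega)
    exact Finset.disjoint_of_subset_right (fun z hz => hWV (hSW (hS' hz))) hS.disjB

theorem strat_step {t n : ℕ} {P : Pos} {A B V : Finset ℕ} (hS : State P A B V) {v : ℕ} (hv : v ∈ V)
    (H : ∀ (P' : Pos) (R L : Finset ℕ), State P' (insert v A) B R → State P' A (insert v B) L →
      R.card + L.card + 1 = V.card → CW t n P') :
    CW t (n + (V.card - 1)) P := by
  rw [← Finset.card_erase_of_mem hv]
  refine cw_star P v (V.erase v) (Finset.notMem_erase v V) ?_ ?_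
  · intro w hw b
    exact hS.fresh v hv w (Finset.mem_of_mem_erase hw) (Finset.ne_of_mem_erase hw).symm b
  intro f
  set P' : Pos := P ∪ {z | ∃ w ∈ V.erase v, z = ((min v w, max v w), f w)} with hP'
  have hPP' : P ⊆ P' := Set.subset_union_left
  have hfr : ∀ u ∈ V.erase v, ∀ w ∈ V.erase v, u ≠ w → ∀ b, ¬ Col P' b u w := by
    intro u hu w hw huw b hc
    rcases hc with hc | ⟨w', hw', hz⟩
    · exact hS.fresh u (Finset.mem_of_mem_erase hu) w (Finset.mem_of_mem_erase hw) huw b hc
    · have h1 : min u w = min v w' := by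
        have := congrArg (fun z : (ℕ × ℕ) × Bool => z.1.1) hz
        exact this
      have h2 : max u w = max v w' := by
        have := congrArg (fun z : (ℕ × ℕ) × Bool => z.1.2) hz
        exact this
      have h3 := Finset.ne_of_mem_erase hu
      have h4 := Finset.ne_of_mem_erase hw
      omega
  have hnew : ∀ w ∈ V.erase v, Col P' (f w) v w := fun w hw => Or.inr ⟨w, hw, rfl⟩
  refine H P' ((V.erase v).filter (fun w => f w = true))
    ((V.erase v).filter (fun w => ¬ f w = true)) ?_ ?_ ?_
  · constructor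
    · intro x hx z hz hxz
      rcases Finset.mem_insert.1 hx with hx' | hx' <;> rcases Finset.mem_insert.1 hz with hz' | hz'
      · exact absurd (hx'.trans hz'.symm) hxz
      · rw [hx']; exact col_symm (col_mono hPP' (hS.redV z hz' v hv))
      · rw [hz']; exact col_mono hPP' (hS.redV x hx' v hv)
      · exact col_mono hPP' (hS.red x hx' z hz' hxz)
    · intro x hx z hz hxz
      exact col_mono hPP' (hS.blue x hx z hz hxz)
    · intro x hx w hw
      rw [Finset.mem_filter] at hw
      rcases Finset.mem_insert.1 hx with rfl | hx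
      · have := hnew w hw.1
        rw [hw.2] at this
        exact this
      · exact col_mono hPP' (hS.redV x hx w (Finset.mem_of_mem_erase hw.1))
    · intro x hx w hw
      rw [Finset.mem_filter] at hw
      exact col_mono hPP' (hS.blueV x hx w (Finset.mem_of_mem_erase hw.1))
    · rw [Finset.disjoint_insert_left]
      refine ⟨fun h => Finset.notMem_erase v V (Finset.mem_filter.1 h).1, ?_⟩
      exact Finset.disjoint_of_subset_right
        ((Finset.filter_subset _ _).trans (Finset.erase_subset _ _)) hS.disjA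
    · exact Finset.disjoint_of_subset_right
        ((Finset.filter_subset _ _).trans (Finset.erase_subset _ _)) hS.disjB
    · intro u hu w hw huw b
      exact hfr u (Finset.mem_filter.1 hu).1 w (Finset.mem_filter.1 hw).1 huw b
  · constructor
    · intro x hx z hz hxz
      exact col_mono hPP' (hS.red x hx z hz hxz)
    · intro x hx z hz hxz
      rcases Finset.mem_insert.1 hx with hx' | hx' <;> rcases Finset.mem_insert.1 hz with hz' | hz'
      · exact absurd (hx'.trans hz'.symm) hxz
      · rw [hx']; exact col_symm (col_mono hPP' (hS.blueV z hz' v hv))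
      · rw [hz']; exact col_mono hPP' (hS.blueV x hx' v hv)
      · exact col_mono hPP' (hS.blue x hx' z hz' hxz)
    · intro x hx w hw
      rw [Finset.mem_filter] at hw
      exact col_mono hPP' (hS.redV x hx w (Finset.mem_of_mem_erase hw.1))
    · intro x hx w hw
      rw [Finset.mem_filter] at hw
      rcases Finset.mem_insert.1 hx with rfl | hx
      · have h5 := hnew w hw.1
        have h6 : f w = false := by simpa using hw.2
        rw [h6] at h5
        exact h5
      · exact col_mono hPP' (hS.blueV x hx w (Finset.mem_of_mem_erase hw.1))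
    · exact Finset.disjoint_of_subset_right
        ((Finset.filter_subset _ _).trans (Finset.erase_subset _ _)) hS.disjA
    · rw [Finset.disjoint_insert_left]
      refine ⟨fun h => Finset.notMem_erase v V (Finset.mem_filter.1 h).1, ?_⟩
      exact Finset.disjoint_of_subset_right
        ((Finset.filter_subset _ _).trans (Finset.erase_subset _ _)) hS.disjB
    · intro u hu w hw huw b
      exact hfr u (Finset.mem_filter.1 hu).1 w (Finset.mem_filter.1 hw).1 huw b
  · have h7 := Finset.card_filter_add_card_filter_not (s := V.erase v) (fun w => f w = true)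
    rw [h7]
    exact Finset.card_erase_add_one hv

theorem strat {t y M N : ℕ} (hM : Arrows M (t - y)) (hM0 : 0 < M) (K : ℝ)
    (hK : (M : ℝ) + 1 ≤ K * ((8 / 9 : ℝ) ^ t * (1 / 9) ^ y)) :
    ∀ (k : ℕ) (P : Pos) (A B V : Finset ℕ), State P A B V → A.card ≤ t → B.card ≤ t →
      (A.card ≤ y ∨ B.card ≤ y) → 2 * t = A.card + B.card + k →
      Phi K A.card B.card - 1 ≤ (V.card : ℝ) → V.card ≤ N → CW t (k * N + M.choose 2) P := by
  have hK0 : 0 ≤ K := by
    have h1 : (0 : ℝ) < (8 / 9 : ℝ) ^ t * (1 / 9) ^ y := by positivity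
    have h2 : (0 : ℝ) < K * ((8 / 9 : ℝ) ^ t * (1 / 9) ^ y) := by
      have : (0 : ℝ) ≤ (M : ℝ) := Nat.cast_nonneg _
      linarith
    exact (pos_of_mul_pos_left h2 h1.le).le
  have hM0' : (1 : ℝ) ≤ (M : ℝ) := by exact_mod_cast hM0
  intro k
  induction k with
  | zero =>
    intro P A B V hS hAt hBt hor h2 hPhi hN
    exact cw_of_mono ⟨A, by omega, true, hS.red⟩
  | succ k ih =>
    intro P A B V hS hAt hBt hor h2 hPhi hN
    by_cases hA : A.card = t
    · exact cw_of_mono ⟨A, hA, true, hS.red⟩
    by_cases hB : B.card = t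
    · exact cw_of_mono ⟨B, hB, false, hS.blue⟩
    have hlow := Phi_lower K hK0 t y A.card B.card hAt hBt hor
    by_cases hy : y ≤ A.card ∧ y ≤ B.card
    · have hMV : M ≤ V.card := by
        have : (M : ℝ) ≤ (V.card : ℝ) := by linarith
        exact_mod_cast this
      exact cw_le (Nat.le_add_left _ _) (strat_final hM hS hy.1 hy.2 hAt hBt hMV)
    have hVne : V.Nonempty := by
      rw [Finset.nonempty_iff_ne_empty]
      rintro rfl
      rw [Finset.card_empty, Nat.cast_zero] at hPhi
      linarith
    obtain ⟨v, hv⟩ := hVne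
    have hstep := strat_step (t := t) (n := k * N + M.choose 2) hS hv ?_
    · refine cw_le ?_ hstep
      have : V.card - 1 ≤ N := by omega
      calc k * N + M.choose 2 + (V.card - 1) ≤ k * N + M.choose 2 + N := by omega
        _ = (k + 1) * N + M.choose 2 := by ring
    intro P' R L hR hL hc
    have hvA : v ∉ A := fun h => (Finset.disjoint_left.1 hS.disjA) h hv
    have hvB : v ∉ B := fun h => (Finset.disjoint_left.1 hS.disjB) h hv
    have hcA : (insert v A).card = A.card + 1 := Finset.card_insert_of_notMem hvA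
    have hcB : (insert v B).card = B.card + 1 := Finset.card_insert_of_notMem hvB
    by_cases h1 : Phi K (A.card + 1) B.card - 1 ≤ (R.card : ℝ)
    · refine ih P' (insert v A) B R hR (by omega) hBt (by omega) (by omega) ?_ (by omega)
      rw [hcA]
      exact h1
    · refine ih P' A (insert v B) L hL hAt (by omega) (by omega) (by omega) ?_ (by omega)
      rw [hcB]
      push Not at h1
      have h3 := Phi_step K A.card B.card
      have h4 : (R.card : ℝ) + L.card + 1 = V.card := by exact_mod_cast hc
      linarith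

theorem onlineRamsey_le {t y M : ℕ} (hM : Arrows M (t - y)) (hM0 : 0 < M) :
    onlineRamsey t ≤ 2 * t * ⌈2 * (((M : ℝ) + 1) * 9 ^ y * (9 / 8) ^ t)⌉₊ + M.choose 2 := by
  set K : ℝ := ((M : ℝ) + 1) * 9 ^ y * (9 / 8) ^ t with hKdef
  have hK : (M : ℝ) + 1 ≤ K * ((8 / 9 : ℝ) ^ t * (1 / 9) ^ y) := by
    have h1 : (9 / 8 : ℝ) ^ t * (8 / 9 : ℝ) ^ t = 1 := by
      rw [← mul_pow]; norm_num
    have h2 : (9 : ℝ) ^ y * (1 / 9 : ℝ) ^ y = 1 := by
      rw [← mul_pow]; norm_num
    have h3 : K * ((8 / 9 : ℝ) ^ t * (1 / 9) ^ y) =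
        ((M : ℝ) + 1) * ((9 : ℝ) ^ y * (1 / 9 : ℝ) ^ y) * ((9 / 8 : ℝ) ^ t * (8 / 9 : ℝ) ^ t) := by
      rw [hKdef]; ring
    rw [h3, h1, h2, mul_one, mul_one]
  have hS : State (∅ : Pos) ∅ ∅ (Finset.range ⌈2 * K⌉₊) := by
    constructor
    · intro x hx; exact absurd hx (Finset.notMem_empty x)
    · intro x hx; exact absurd hx (Finset.notMem_empty x)
    · intro x hx; exact absurd hx (Finset.notMem_empty x)
    · intro x hx; exact absurd hx (Finset.notMem_empty x)
    · exact Finset.disjoint_empty_left _
    · exact Finset.disjoint_empty_left _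
    · intro u _ w _ _ b h; exact h
  have h := strat (N := ⌈2 * K⌉₊) hM hM0 K hK (2 * t) ∅ ∅ ∅ (Finset.range ⌈2 * K⌉₊) hS
    (by simp) (by simp) (by simp) (by simp) ?_ (by simp)
  · exact Nat.sInf_le (forces_of_cw h)
  · have h5 : Phi K (∅ : Finset ℕ).card (∅ : Finset ℕ).card = 2 * K := by
      unfold Phi
      simp
      ring
    rw [h5, Finset.card_range]
    have := Nat.le_ceil (2 * K)
    linarith

end H48.OR
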