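import Pool.Agent.H48.OR.Static
import Pool.Agent.H48.OR.Strat
import Pool.Agent.H48.OR.Erdos

/-!
JOB OR-INEQ. Numerical consequences. Write `R = ramsey t`, `g t = t - (t / 10 + 1)`, `M = ramsey (g t)`, `y = t / 10 + 1`.

PROOFS. `ramsey_pos`: `Arrows 0 t` with `0 < t` is impossible. `lower`: `erdos_lower` and `arrows_ramsey` (`Real.sqrt` / `rpow`: `2^t ≤ R^2`).
For `t ≥ 2`, `y < t` and `t - y = g t`, `M ≥ 1` for `t ≥ 3`.
Number: `9^y (9/8)^t ≤ 9 * (9^(1/10) * 9/8)^t ≤ 9 * 2^(487 t / 1000)`: indeed `9 * (9/8)^10 ≤ 2^(4.87)`, i.e.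
`(9 * (9/8)^10)^100 ≤ 2^487` (an inequality between rational numbers, `norm_num`; `log2 = 4.86925..`), and `9^(t/10) ≤ 9^(t / 10 : ℝ)`.
`upper3`: from `ramsey_le`: `R ≤ 2 (M + 1) 9^y (9/8)^t + 1 ≤ 5 M * 9 * 2^(487 t/1000)` for `t ≥ 3`, take `Real.logb 2`; `C = 10` works
(`log2 45 < 6`); for `t = 2`: `g 2 = 1`; `ramsey 2 ≤ 2`, `M = ramsey 1 = 1`, or use the same bound.
`upper2`: `ramsey t ≤ 2 * 2 * 9^t (9/8)^t + 1 ≤ 2^(5 (t+1))`: `ramsey_le` with `y = t - 1`, `ramsey 1 ≤ 1`; `C = 10` is generous. (`t = 0`: `ramsey 0 = 0`,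
`Real.logb 2 0 = 0`.)
`upper_main`: `onlineRamsey_le` with `M = ramsey (g t)` (`arrows_ramsey`): `onlineRamsey t ≤ 2 t N + M.choose 2`,
`N ≤ 2 (M+1) 9^y (9/8)^t + 1 ≤ 45 M 2^(487 t/1000)`, `M ≤ R` (`ramsey_mono`), `R ≥ 2^(t/2)`, so
`2 t N ≤ 90 t R 2^(487 t/1000) ≤ 90 t R^2 2^(-13 t/1000)`, and `R.choose 2 ≥ R^2 / 4` (`R ≥ 2`); so
`2 t N ≤ 360 t 2^(-13 t/1000) (R.choose 2) ≤ 2^(-t/100) (R.choose 2)` for all large `t` (exponential against linear).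
`good_main`: if `logb 2 M + t/1000 ≤ logb 2 R` then `M ≤ R 2^(-t/1000)`, `M.choose 2 ≤ M^2/2 ≤ R^2/2 * 2^(-t/500) ≤ 2 (R.choose 2) 2^(-t/500)`, and
`2^(-t/100) + 2 * 2^(-t/500) ≤ 2^(-t/1000)` for large `t`.
-/

set_option autoImplicit false

namespace H48.OR

theorem ramsey_pos {t : ℕ} (ht : 0 < t) : 0 < ramsey t := by
  rcases Nat.eq_zero_or_pos (ramsey t) with h | h
  · exfalso
    have h1 := arrows_ramsey t
    rw [h] at h1
    obtain ⟨S, hS, -⟩ := h1 (fun _ _ => true)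
    have h2 : S.card ≤ 0 := by
      have := Finset.card_le_univ S
      simpa using this
    omega
  · exact h

theorem lower {t : ℕ} (ht : 3 ≤ t) : (t : ℝ) / 2 ≤ Real.logb 2 (ramsey t) := by
  have h1 : (2 : ℝ) ^ t ≤ (ramsey t : ℝ) ^ 2 := by exact_mod_cast erdos_lower ht (arrows_ramsey t)
  have h2 : Real.logb 2 ((2 : ℝ) ^ t) ≤ Real.logb 2 ((ramsey t : ℝ) ^ 2) :=
    Real.logb_le_logb_of_le (by norm_num) (by positivity) h1
  rw [Real.logb_pow, Real.logb_pow, Real.logb_self_eq_one (by norm_num)] at h2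
  push_cast at h2
  linarith

theorem ineq_num (t : ℕ) :
    (9 : ℝ) ^ (t / 10 + 1) * (9 / 8) ^ t ≤ 9 * (2 : ℝ) ^ ((487 : ℝ) / 1000 * t) := by
  have h1 : (9 : ℝ) ^ 100 * (9 / 8) ^ 1000 ≤ 2 ^ 487 := by
    have h0 : (9 : ℝ) ^ 1100 ≤ 2 ^ 3487 := by
      rw [show 1100 = 100 * 11 by norm_num, show 3487 = 317 * 11 by norm_num, pow_mul, pow_mul,
        show 317 = 200 + 117 by norm_num, pow_add (2 : ℝ)]
      norm_num
    have h2 : (9 : ℝ) ^ 100 * (9 / 8) ^ 1000 = 9 ^ 1100 / 2 ^ 3000 := by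
      rw [div_pow, show (8 : ℝ) = 2 ^ 3 by norm_num, ← pow_mul, show 3 * 1000 = 3000 by norm_num,
        mul_div_assoc', ← pow_add]
    rw [h2, div_le_iff₀ (by positivity), ← pow_add]
    exact h0
  have h3 : (9 : ℝ) ^ (t / 10) * (9 / 8) ^ t ≤ (2 : ℝ) ^ ((487 : ℝ) / 1000 * t) := by
    rw [← pow_le_pow_iff_left₀ (by positivity) (by positivity) (n := 1000) (by norm_num)]
    have h4 : ((2 : ℝ) ^ ((487 : ℝ) / 1000 * t)) ^ 1000 = (2 ^ 487) ^ t := by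
      rw [← Real.rpow_natCast, ← Real.rpow_mul (by norm_num), ← pow_mul, ← Real.rpow_natCast]
      congr 1
      push_cast
      ring
    rw [h4, mul_pow, ← pow_mul, ← pow_mul]
    have h5 : (9 : ℝ) ^ (t / 10 * 1000) ≤ 9 ^ (100 * t) := by
      apply pow_le_pow_right₀ (by norm_num)
      have := Nat.div_mul_le_self t 10
      omega
    calc (9 : ℝ) ^ (t / 10 * 1000) * (9 / 8) ^ (t * 1000)
        ≤ 9 ^ (100 * t) * (9 / 8) ^ (t * 1000) := by
          apply mul_le_mul_of_nonneg_right h5 (by positivity)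
      _ = (9 ^ 100 * (9 / 8) ^ 1000) ^ t := by
          rw [mul_pow, ← pow_mul, ← pow_mul, mul_comm t 1000]
      _ ≤ (2 ^ 487) ^ t := pow_le_pow_left₀ (by positivity) h1 t
  rw [pow_succ]
  calc (9 : ℝ) ^ (t / 10) * 9 * (9 / 8) ^ t = 9 * ((9 : ℝ) ^ (t / 10) * (9 / 8) ^ t) := by ring
    _ ≤ 9 * (2 : ℝ) ^ ((487 : ℝ) / 1000 * t) := mul_le_mul_of_nonneg_left h3 (by norm_num)

theorem ineq_one_le (t : ℕ) : (1 : ℝ) ≤ (2 : ℝ) ^ ((487 : ℝ) / 1000 * t) :=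
  Real.one_le_rpow (by norm_num) (by positivity)

theorem ineq_ceil (t M : ℕ) (hM : 1 ≤ M) :
    (⌈2 * (((M : ℝ) + 1) * 9 ^ (t / 10 + 1) * (9 / 8) ^ t)⌉₊ : ℝ) ≤
      37 * ((M : ℝ) * (2 : ℝ) ^ ((487 : ℝ) / 1000 * t)) := by
  have hM' : (1 : ℝ) ≤ M := by exact_mod_cast hM
  have h1 := (Nat.ceil_lt_add_one (R := ℝ)
    (a := 2 * (((M : ℝ) + 1) * 9 ^ (t / 10 + 1) * (9 / 8) ^ t)) (by positivity)).le
  refine h1.trans ?_
  have h2 := ineq_num t
  have h3 := ineq_one_le t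
  set E := (2 : ℝ) ^ ((487 : ℝ) / 1000 * t) with hE
  have h4 : (M : ℝ) * ((9 : ℝ) ^ (t / 10 + 1) * (9 / 8) ^ t) ≤ M * (9 * E) :=
    mul_le_mul_of_nonneg_left h2 (by positivity)
  have h5 : ((M : ℝ) + 1) * ((9 : ℝ) ^ (t / 10 + 1) * (9 / 8) ^ t) ≤
      (2 * M) * ((9 : ℝ) ^ (t / 10 + 1) * (9 / 8) ^ t) :=
    mul_le_mul_of_nonneg_right (by linarith) (by positivity)
  have h6 : (1 : ℝ) ≤ M * E := by nlinarith
  rw [mul_assoc ((M : ℝ) + 1)]
  linarith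

theorem upper2 (t : ℕ) : Real.logb 2 (ramsey t) ≤ 10 * ((t : ℝ) + 1) := by
  rcases Nat.eq_zero_or_pos t with rfl | ht
  · have h0 : ramsey 0 = 0 := Nat.le_zero.1 (Nat.sInf_le arrows_zero)
    rw [h0]
    simp
  · have h1 : ramsey 1 ≤ 1 := by
      apply Nat.sInf_le
      intro f
      refine ⟨{0}, rfl, true, ?_⟩
      intro x hx y hy hxy
      rw [Finset.mem_singleton] at hx hy
      rw [hx, hy] at hxy
      exact absurd hxy (lt_irrefl _)
    have h2 := ramsey_le (t := t) (y := t - 1) (by omega)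
    rw [show t - (t - 1) = 1 by omega] at h2
    have h3 : (ramsey t : ℝ) ≤ (⌈2 * (((ramsey 1 : ℝ) + 1) * 9 ^ (t - 1) * (9 / 8) ^ t)⌉₊ : ℝ) := by
      exact_mod_cast h2
    have h4 := (Nat.ceil_lt_add_one (R := ℝ)
      (a := 2 * (((ramsey 1 : ℝ) + 1) * 9 ^ (t - 1) * (9 / 8) ^ t)) (by positivity)).le
    have h5 : (ramsey 1 : ℝ) ≤ 1 := by exact_mod_cast h1
    have h6 : (9 : ℝ) ^ (t - 1) ≤ 16 ^ t :=
      (pow_le_pow_right₀ (by norm_num) (Nat.sub_le t 1)).trans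
        (pow_le_pow_left₀ (by norm_num) (by norm_num) t)
    have h7 : (9 / 8 : ℝ) ^ t ≤ 2 ^ t := pow_le_pow_left₀ (by norm_num) (by norm_num) t
    have h8 : (ramsey t : ℝ) ≤ 2 ^ (10 * (t + 1)) := by
      have h9 : ((ramsey 1 : ℝ) + 1) * 9 ^ (t - 1) * (9 / 8) ^ t ≤ 2 * 16 ^ t * 2 ^ t := by
        apply mul_le_mul (mul_le_mul (by linarith) h6 (by positivity) (by norm_num)) h7
          (by positivity) (by positivity)
      have h10 : (2 : ℝ) * 16 ^ t * 2 ^ t = 2 * 32 ^ t := by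
        rw [mul_assoc, ← mul_pow]
        norm_num
      have h11 : (1 : ℝ) ≤ 32 ^ t := one_le_pow₀ (by norm_num)
      have h12 : (ramsey t : ℝ) ≤ 5 * 32 ^ t := by
        rw [h10] at h9
        linarith
      have h13 : (2 : ℝ) ^ (10 * (t + 1)) = 1024 * 1024 ^ t := by
        rw [pow_mul, pow_succ]
        norm_num
        ring
      have h14 : (32 : ℝ) ^ t ≤ 1024 ^ t := pow_le_pow_left₀ (by norm_num) (by norm_num) t
      rw [h13]
      linarith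
    have h9 : (0 : ℝ) < ramsey t := by exact_mod_cast ramsey_pos ht
    have h10 := Real.logb_le_logb_of_le (b := 2) (by norm_num) h9 h8
    rw [Real.logb_pow, Real.logb_self_eq_one (by norm_num)] at h10
    push_cast at h10
    linarith

theorem ineq_M {t : ℕ} (ht : 2 ≤ t) : 1 ≤ ramsey (t - (t / 10 + 1)) := by
  apply ramsey_pos
  omega

theorem upper3 (t : ℕ) (ht : 2 ≤ t) : Real.logb 2 (ramsey t) ≤
    Real.logb 2 (ramsey (t - (t / 10 + 1))) + 487 / 1000 * t + 10 := by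
  have hM := ineq_M ht
  set M := ramsey (t - (t / 10 + 1)) with hMdef
  have hM' : (1 : ℝ) ≤ M := by exact_mod_cast hM
  have h1 := ramsey_le (t := t) (y := t / 10 + 1) (by omega)
  rw [← hMdef] at h1
  have h2 : (ramsey t : ℝ) ≤ 37 * ((M : ℝ) * (2 : ℝ) ^ ((487 : ℝ) / 1000 * t)) := by
    refine le_trans ?_ (ineq_ceil t M hM)
    exact_mod_cast h1
  have h3 := ineq_one_le t
  have hE : (0 : ℝ) < (2 : ℝ) ^ ((487 : ℝ) / 1000 * t) := by positivity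
  have h4 : (ramsey t : ℝ) ≤ 2 ^ 10 * ((M : ℝ) * (2 : ℝ) ^ ((487 : ℝ) / 1000 * t)) := by
    refine h2.trans (mul_le_mul_of_nonneg_right (by norm_num) (by positivity))
  have h5 : (0 : ℝ) < ramsey t := by exact_mod_cast ramsey_pos (by omega)
  have h6 := Real.logb_le_logb_of_le (b := 2) (by norm_num) h5 h4
  rw [Real.logb_mul (by norm_num) (by positivity), Real.logb_mul (by positivity) (by positivity),
    Real.logb_pow, Real.logb_self_eq_one (by norm_num),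
    Real.logb_rpow (by norm_num) (by norm_num)] at h6
  push_cast at h6
  linarith

theorem ineq_R {t : ℕ} (ht : 3 ≤ t) : (2 : ℝ) ^ ((t : ℝ) / 2) ≤ ramsey t := by
  have h := lower ht
  have h5 : (0 : ℝ) < ramsey t := by exact_mod_cast ramsey_pos (by omega)
  rwa [Real.le_logb_iff_rpow_le (by norm_num) h5] at h

theorem ineq_R2 {t : ℕ} (ht : 3 ≤ t) : (2 : ℝ) ≤ ramsey t := by
  refine le_trans ?_ (ineq_R ht)
  have h1 : (2 : ℝ) ^ (1 : ℝ) ≤ (2 : ℝ) ^ ((t : ℝ) / 2) := by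
    apply Real.rpow_le_rpow_of_exponent_le (by norm_num)
    have : (3 : ℝ) ≤ t := by exact_mod_cast ht
    linarith
  rwa [Real.rpow_one] at h1

theorem ineq_choose {R : ℕ} (hR : (2 : ℝ) ≤ R) : (R : ℝ) ^ 2 / 4 ≤ (R.choose 2 : ℕ) := by
  rw [Nat.cast_choose_two]
  nlinarith

theorem upper_main : ∀ᶠ t : ℕ in Filter.atTop,
    (onlineRamsey t : ℝ) ≤ ((ramsey (t - (t / 10 + 1))).choose 2 : ℕ) +
      (2 : ℝ) ^ (-(t : ℝ) / 100) * ((ramsey t).choose 2 : ℕ) := by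
  have hr : (1 : ℝ) < (2 : ℝ) ^ ((3 : ℝ) / 1000) := Real.one_lt_rpow (by norm_num) (by norm_num)
  have hlim := tendsto_pow_const_div_const_pow_of_one_lt 1 hr
  have hev := hlim.eventually (gt_mem_nhds (show (0 : ℝ) < 1 / 296 by norm_num))
  filter_upwards [hev, Filter.eventually_ge_atTop 3] with t ht h3
  have hM := ineq_M (t := t) (by omega)
  have hMR : ramsey (t - (t / 10 + 1)) ≤ ramsey t := ramsey_mono (Nat.sub_le _ _)
  have h1 := onlineRamsey_le (t := t) (y := t / 10 + 1) (arrows_ramsey (t - (t / 10 + 1))) hM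
  have h2 := ineq_ceil t _ hM
  set M := ramsey (t - (t / 10 + 1)) with hMdef
  set N := ⌈2 * (((M : ℝ) + 1) * 9 ^ (t / 10 + 1) * (9 / 8) ^ t)⌉₊ with hN
  set E := (2 : ℝ) ^ ((487 : ℝ) / 1000 * t) with hE
  have hE0 : 0 < E := by positivity
  have h1' : (onlineRamsey t : ℝ) ≤ 2 * t * N + (M.choose 2 : ℕ) := by exact_mod_cast h1
  have hMR' : (M : ℝ) ≤ ramsey t := by exact_mod_cast hMR
  have hR := ineq_R h3
  have hR2 := ineq_R2 h3
  have hC := ineq_choose hR2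
  set R : ℝ := (ramsey t : ℝ) with hRdef
  -- the exponential against the linear function
  have hrn : ((2 : ℝ) ^ ((3 : ℝ) / 1000)) ^ t = (2 : ℝ) ^ ((3 : ℝ) / 1000 * t) := by
    rw [← Real.rpow_natCast, ← Real.rpow_mul (by norm_num)]
  have h4 : 296 * (t : ℝ) ≤ (2 : ℝ) ^ ((3 : ℝ) / 1000 * t) := by
    rw [hrn, pow_one, div_lt_iff₀ (by positivity)] at ht
    linarith
  have h5 : 296 * (t : ℝ) * E ≤ (2 : ℝ) ^ (-(t : ℝ) / 100) * R := by
    calc 296 * (t : ℝ) * E ≤ (2 : ℝ) ^ ((3 : ℝ) / 1000 * t) * E :=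
          mul_le_mul_of_nonneg_right h4 hE0.le
      _ = (2 : ℝ) ^ (-(t : ℝ) / 100) * (2 : ℝ) ^ ((t : ℝ) / 2) := by
          rw [hE, ← Real.rpow_add (by norm_num), ← Real.rpow_add (by norm_num)]
          congr 1
          ring
      _ ≤ (2 : ℝ) ^ (-(t : ℝ) / 100) * R := mul_le_mul_of_nonneg_left hR (by positivity)
  have h6 : (N : ℝ) ≤ 37 * (R * E) :=
    h2.trans (mul_le_mul_of_nonneg_left (mul_le_mul_of_nonneg_right hMR' hE0.le) (by norm_num))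
  have h7 : 2 * (t : ℝ) * N ≤ (2 : ℝ) ^ (-(t : ℝ) / 100) * ((ramsey t).choose 2 : ℕ) := by
    have ht0 : (0 : ℝ) ≤ t := Nat.cast_nonneg t
    calc 2 * (t : ℝ) * N ≤ 2 * t * (37 * (R * E)) := mul_le_mul_of_nonneg_left h6 (by positivity)
      _ = R / 4 * (296 * t * E) := by ring
      _ ≤ R / 4 * ((2 : ℝ) ^ (-(t : ℝ) / 100) * R) :=
          mul_le_mul_of_nonneg_left h5 (by linarith)
      _ = (2 : ℝ) ^ (-(t : ℝ) / 100) * (R ^ 2 / 4) := by ring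
      _ ≤ (2 : ℝ) ^ (-(t : ℝ) / 100) * ((ramsey t).choose 2 : ℕ) :=
          mul_le_mul_of_nonneg_left hC (by positivity)
  linarith

theorem good_main : ∀ᶠ t : ℕ in Filter.atTop,
    Real.logb 2 (ramsey (t - (t / 10 + 1))) + (t : ℝ) / 1000 ≤ Real.logb 2 (ramsey t) →
      (onlineRamsey t : ℝ) ≤ (2 : ℝ) ^ (-(t : ℝ) / 1000) * ((ramsey t).choose 2 : ℕ) := by
  filter_upwards [upper_main, Filter.eventually_ge_atTop 2000] with t hmain ht hlog
  have hM := ineq_M (t := t) (by omega)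
  have hM' : (0 : ℝ) < ramsey (t - (t / 10 + 1)) := by exact_mod_cast hM
  have hR2 := ineq_R2 (t := t) (by omega)
  have hC := ineq_choose hR2
  have hR0 : (0 : ℝ) < ramsey t := by linarith
  set z := (2 : ℝ) ^ (-(t : ℝ) / 1000) with hz
  have hz0 : 0 < z := by positivity
  have hz3 : z ≤ 1 / 4 := by
    have h1 : z ≤ (2 : ℝ) ^ (-2 : ℝ) := by
      apply Real.rpow_le_rpow_of_exponent_le (by norm_num)
      have : (2000 : ℝ) ≤ t := by exact_mod_cast ht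
      linarith
    refine h1.trans (le_of_eq ?_)
    rw [Real.rpow_neg (by norm_num), Real.rpow_two]
    norm_num
  have hz10 : (2 : ℝ) ^ (-(t : ℝ) / 100) = z ^ 10 := by
    rw [hz, ← Real.rpow_natCast, ← Real.rpow_mul (by norm_num)]
    congr 1
    push_cast
    ring
  have hMz : (ramsey (t - (t / 10 + 1)) : ℝ) ≤ ramsey t * z := by
    have h1 : Real.logb 2 (ramsey (t - (t / 10 + 1))) ≤ Real.logb 2 (ramsey t * z) := by
      rw [Real.logb_mul hR0.ne' hz0.ne', hz, Real.logb_rpow (by norm_num) (by norm_num)]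
      linarith
    exact (Real.logb_le_logb (by norm_num) hM' (by positivity)).1 h1
  set M : ℝ := (ramsey (t - (t / 10 + 1)) : ℝ) with hMdef
  have hMC : (((ramsey (t - (t / 10 + 1))).choose 2 : ℕ) : ℝ) ≤ M ^ 2 / 2 := by
    rw [Nat.cast_choose_two, ← hMdef]
    nlinarith
  have h2 : M ^ 2 ≤ (ramsey t * z) ^ 2 := pow_le_pow_left₀ hM'.le hMz 2
  set C : ℝ := (((ramsey t).choose 2 : ℕ) : ℝ) with hCdef
  have hC0 : 0 ≤ C := Nat.cast_nonneg _
  have h3 : (((ramsey (t - (t / 10 + 1))).choose 2 : ℕ) : ℝ) ≤ 2 * z ^ 2 * C := by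
    calc (((ramsey (t - (t / 10 + 1))).choose 2 : ℕ) : ℝ) ≤ M ^ 2 / 2 := hMC
      _ ≤ (ramsey t * z) ^ 2 / 2 := by linarith
      _ = 2 * z ^ 2 * ((ramsey t : ℝ) ^ 2 / 4) := by ring
      _ ≤ 2 * z ^ 2 * C := mul_le_mul_of_nonneg_left hC (by positivity)
  rw [hz10] at hmain
  have h4 : 2 * z ^ 2 + z ^ 10 ≤ z := by
    have h5 : z ^ 10 ≤ z ^ 2 := pow_le_pow_of_le_one hz0.le (by linarith) (by norm_num)
    nlinarith
  calc (onlineRamsey t : ℝ) ≤ 2 * z ^ 2 * C + z ^ 10 * C := by linarith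
    _ = (2 * z ^ 2 + z ^ 10) * C := by ring
    _ ≤ z * C := mul_le_mul_of_nonneg_right h4 hC0

end H48.OR
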