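import Pool.Agent.H48.OR.Ineq
import Pool.Agent.H48.OR.Dens

/-! Assembly. -/

set_option autoImplicit false

namespace H48.OR

theorem positive_density : ∀ᶠ T : ℕ in Filter.atTop, (T : ℝ) / 10 ≤
    (((Finset.range (T + 1)).filter
      (fun t : ℕ => (onlineRamsey t : ℝ) ≤
        (2 : ℝ) ^ (-(t : ℝ) / 1000) * ((ramsey t).choose 2 : ℕ))).card : ℝ) := by
  have hmono : Monotone (fun t : ℕ => Real.logb 2 (ramsey t)) := by
    intro s t hst
    rcases Nat.eq_zero_or_pos s with rfl | hs
    · have h0 : ramsey 0 = 0 := Nat.le_zero.1 (Nat.sInf_le arrows_zero)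
      show Real.logb 2 (ramsey 0) ≤ Real.logb 2 (ramsey t)
      rw [h0]
      simp only [Nat.cast_zero, Real.logb_zero]
      rcases Nat.eq_zero_or_pos (ramsey t) with ht | ht
      · rw [ht]; simp
      · exact Real.logb_nonneg (by norm_num) (by exact_mod_cast ht)
    · apply Real.logb_le_logb_of_le (by norm_num)
      · exact_mod_cast ramsey_pos hs
      · exact_mod_cast ramsey_mono hst
  have hd := density (fun t : ℕ => Real.logb 2 (ramsey t)) hmono 10 (by norm_num) 3
    (fun t ht => lower ht) upper2 upper3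
  obtain ⟨t1, ht1⟩ := Filter.eventually_atTop.1 good_main
  filter_upwards [hd, Filter.eventually_ge_atTop (10000 * (t1 + 1))] with T hT hT1
  have hsub : (Finset.range (T + 1)).filter
      (fun t : ℕ => Real.logb 2 (ramsey (t - (t / 10 + 1))) + (t : ℝ) / 1000 ≤
        Real.logb 2 (ramsey t)) ⊆ ((Finset.range (T + 1)).filter
      (fun t : ℕ => (onlineRamsey t : ℝ) ≤
        (2 : ℝ) ^ (-(t : ℝ) / 1000) * ((ramsey t).choose 2 : ℕ))) ∪ Finset.range t1 := by
    intro t ht
    rw [Finset.mem_filter] at ht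
    rw [Finset.mem_union]
    by_cases h : t < t1
    · exact Or.inr (Finset.mem_range.2 h)
    · left
      rw [Finset.mem_filter]
      exact ⟨ht.1, ht1 t (not_lt.1 h) ht.2⟩
  have hcard := (Finset.card_le_card hsub).trans (Finset.card_union_le _ _)
  rw [Finset.card_range] at hcard
  have hcard' : (((Finset.range (T + 1)).filter
      (fun t : ℕ => Real.logb 2 (ramsey (t - (t / 10 + 1))) + (t : ℝ) / 1000 ≤
        Real.logb 2 (ramsey t))).card : ℝ) ≤ (((Finset.range (T + 1)).filter
      (fun t : ℕ => (onlineRamsey t : ℝ) ≤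
        (2 : ℝ) ^ (-(t : ℝ) / 1000) * ((ramsey t).choose 2 : ℕ))).card : ℝ) + t1 := by
    exact_mod_cast hcard
  have hT2 : (10000 : ℝ) * (t1 + 1) ≤ T := by exact_mod_cast hT1
  linarith

end H48.OR
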