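import Pool.Agent.H48.OR.Basic

/-!
JOB OR-STATIC. The off-line version of the argument: an upper bound for `ramsey t` by `ramsey (t - y)`.

PROOF of `static_aux` by induction on `k` (generalising `a b V`). Let `n = V.card`.
If `a = t` (or `b = t`) take `S = ∅` (`t - a = 0`). So assume `a < t`, `b < t` (this is automatic when `k = 0`).
If `y ≤ a` and `y ≤ b`: by `Phi_lower` and `hK`, `M + 1 ≤ Phi K a b`, so `M ≤ n`; by `Arrows.finset` there is a one-coloured
`S ⊆ V` with `S.card = t - y`; if its colour is `true` take a subset with `t - a ≤ t - y` elements, if it is `false`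
a subset with `t - b ≤ t - y` elements (`Finset.exists_subset_card_eq`).
Otherwise `a < y` or `b < y`, hence `a + 1 ≤ y ∨ b ≤ y` ... : in both sub-states the hypothesis `(a ≤ y ∨ b ≤ y)` holds: if `a < y` then
`a + 1 ≤ y` and (for the other one) `a ≤ y`; if `b < y` then `b ≤ y` and `b + 1 ≤ y`. `V` is nonempty, because `1 ≤ M + 1 ≤ Phi K a b`
gives only `0 ≤ n`; if `n = 0` then `Phi K a b ≤ 1`, while `Phi K a b ≥ M + 1`, so `M = 0`; then `Arrows 0 (t - y)` forces `t - y = 0`
(the only finset of `Fin 0` is empty), i.e. `t ≤ y`; this case is excluded by the hypothesis `hy : y < t`.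
Let `v` be the LARGEST element of `V` (`V.max'`), `W = V.erase v`, so that `u < v` for `u ∈ W`; `R = {u ∈ W | f u v = true}`,
`B = {u ∈ W | f u v = false}`; `R.card + B.card = n - 1`. If `Phi K (a+1) b - 1 ≤ R.card`: induction (with `k - 1`) for `R`: either a `true` set
`S ⊆ R` with `t - (a + 1)` elements: then `insert v S` is good with `t - a` elements; or a `false` set with `t - b` elements: done.
Similarly if `Phi K a (b+1) - 1 ≤ B.card`. If both fail then `n - 1 = R.card + B.card < Phi K (a+1) b + Phi K a (b+1) - 2 = Phi K a b - 2`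
(`Phi_step`), contradiction with `Phi K a b - 1 ≤ n`.

PROOF of `arrows_static`: `K = (M + 1) 9^y (9/8)^t`, `N = ⌈2 K⌉₊`; `Phi K 0 0 = 2 K ≤ N`; use `arrows_of_finset` and `static_aux`
with `a = b = 0`, `V = Finset.range N`.
PROOF of `arrows_ramsey`: `Nat.sInf_mem`, the set is nonempty: for `t = 0` it contains `0` (`arrows_zero`); for `t > 0` use
`arrows_static` with `y = t - 1`, `M = 1` (`Arrows 1 1` is clear).
`ramsey_le`: `Nat.sInf_le` and `arrows_static` with `M = ramsey (t - y)`. `ramsey_mono`: `Nat.sInf_le` and `Arrows.mono`.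
-/

set_option autoImplicit false

namespace H48.OR

theorem static_aux {t y M : ℕ} (hy : y < t) (hM : Arrows M (t - y)) (f : ℕ → ℕ → Bool) (K : ℝ)
    (hK : (M : ℝ) + 1 ≤ K * ((8 / 9 : ℝ) ^ t * (1 / 9) ^ y)) :
    ∀ k a b : ℕ, a ≤ t → b ≤ t → (a ≤ y ∨ b ≤ y) → 2 * t = a + b + k → ∀ V : Finset ℕ,
      Phi K a b - 1 ≤ (V.card : ℝ) →
      (∃ S : Finset ℕ, S ⊆ V ∧ S.card = t - a ∧ ∀ x ∈ S, ∀ y ∈ S, x < y → f x y = true) ∨
      (∃ S : Finset ℕ, S ⊆ V ∧ S.card = t - b ∧ ∀ x ∈ S, ∀ y ∈ S, x < y → f x y = false) := by
  have hpos : (0 : ℝ) < (8 / 9 : ℝ) ^ t * (1 / 9) ^ y := by positivity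
  have hK0 : 0 ≤ K := by
    by_contra hc
    push Not at hc
    have h1 : K * ((8 / 9 : ℝ) ^ t * (1 / 9) ^ y) < 0 := mul_neg_of_neg_of_pos hc hpos
    have h2 : (0 : ℝ) ≤ M := Nat.cast_nonneg _
    linarith
  intro k
  induction k with
  | zero =>
    intro a b ha hb hab hk V _
    have hat : a = t := by omega
    left
    exact ⟨∅, Finset.empty_subset _, by simp [hat], by simp⟩
  | succ k ih =>
    intro a b ha hb hab hk V hV
    by_cases hat : a = t
    · left
      exact ⟨∅, Finset.empty_subset _, by simp [hat], by simp⟩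
    by_cases hbt : b = t
    · right
      exact ⟨∅, Finset.empty_subset _, by simp [hbt], by simp⟩
    have hlow := hK.trans (Phi_lower K hK0 t y a b ha hb hab)
    by_cases hyy : y ≤ a ∧ y ≤ b
    · have hMV : M ≤ V.card := by
        have : (M : ℝ) ≤ V.card := by linarith
        exact_mod_cast this
      obtain ⟨S, hSV, hSc, col, hcol⟩ := hM.finset V hMV f
      cases col with
      | true =>
        left
        obtain ⟨S', hS', hc'⟩ := Finset.exists_subset_card_eq (s := S) (n := t - a) (by omega)
        exact ⟨S', hS'.trans hSV, hc', fun x hx z hz hxz => hcol x (hS' hx) z (hS' hz) hxz⟩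
      | false =>
        right
        obtain ⟨S', hS', hc'⟩ := Finset.exists_subset_card_eq (s := S) (n := t - b) (by omega)
        exact ⟨S', hS'.trans hSV, hc', fun x hx z hz hxz => hcol x (hS' hx) z (hS' hz) hxz⟩
    have hne : V.Nonempty := by
      rw [← Finset.card_pos]
      by_contra hc
      have h0 : V.card = 0 := by omega
      rw [h0] at hV
      push_cast at hV
      have h1 : (M : ℝ) ≤ 0 := by linarith
      have h2 : M = 0 := by
        have : M ≤ 0 := by exact_mod_cast h1
        omega
      subst h2
      obtain ⟨S, hS, _⟩ := hM (fun _ _ => true)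
      have h3 : S.card ≤ Fintype.card (Fin 0) := Finset.card_le_univ S
      rw [Fintype.card_fin, hS] at h3
      omega
    set v := V.max' hne with hv
    have hvV : v ∈ V := Finset.max'_mem V hne
    have hlt : ∀ u ∈ V.erase v, u < v := by
      intro u hu
      rw [Finset.mem_erase] at hu
      exact lt_of_le_of_ne (Finset.le_max' V u hu.2) hu.1
    set R := (V.erase v).filter (fun u => f u v = true) with hR
    set B := (V.erase v).filter (fun u => ¬ f u v = true) with hB
    have hRV : R ⊆ V := (Finset.filter_subset _ _).trans (Finset.erase_subset _ _)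
    have hBV : B ⊆ V := (Finset.filter_subset _ _).trans (Finset.erase_subset _ _)
    have hsum : R.card + B.card = V.card - 1 := by
      rw [hR, hB, Finset.card_filter_add_card_filter_not, Finset.card_erase_of_mem hvV]
    have hVpos : 0 < V.card := hne.card_pos
    by_cases h1 : Phi K (a + 1) b - 1 ≤ (R.card : ℝ)
    · rcases ih (a + 1) b (by omega) hb (by omega) (by omega) R h1 with
        ⟨S, hS, hc, hf⟩ | ⟨S, hS, hc, hf⟩
      · left
        have hvS : v ∉ S := fun h => by
          have := hS h
          rw [hR, Finset.mem_filter, Finset.mem_erase] at this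
          exact this.1.1 rfl
        refine ⟨insert v S, ?_, ?_, ?_⟩
        · intro x hx
          rcases Finset.mem_insert.1 hx with rfl | hx
          · exact hvV
          · exact hRV (hS hx)
        · rw [Finset.card_insert_of_notMem hvS, hc]
          omega
        · intro x hx z hz hxz
          rcases Finset.mem_insert.1 hx with hx | hx
          · rcases Finset.mem_insert.1 hz with hz | hz
            · rw [hx, hz] at hxz
              exact absurd hxz (lt_irrefl _)
            · have := Finset.le_max' V z (hRV (hS hz))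
              rw [← hv] at this
              omega
          · rcases Finset.mem_insert.1 hz with hz | hz
            · rw [hz]
              have := hS hx
              rw [hR, Finset.mem_filter] at this
              exact this.2
            · exact hf x hx z hz hxz
      · right
        exact ⟨S, hS.trans hRV, hc, hf⟩
    by_cases h2 : Phi K a (b + 1) - 1 ≤ (B.card : ℝ)
    · rcases ih a (b + 1) ha (by omega) (by omega) (by omega) B h2 with
        ⟨S, hS, hc, hf⟩ | ⟨S, hS, hc, hf⟩
      · left
        exact ⟨S, hS.trans hBV, hc, hf⟩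
      · right
        have hvS : v ∉ S := fun h => by
          have := hS h
          rw [hB, Finset.mem_filter, Finset.mem_erase] at this
          exact this.1.1 rfl
        refine ⟨insert v S, ?_, ?_, ?_⟩
        · intro x hx
          rcases Finset.mem_insert.1 hx with rfl | hx
          · exact hvV
          · exact hBV (hS hx)
        · rw [Finset.card_insert_of_notMem hvS, hc]
          omega
        · intro x hx z hz hxz
          rcases Finset.mem_insert.1 hx with hx | hx
          · rcases Finset.mem_insert.1 hz with hz | hz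
            · rw [hx, hz] at hxz
              exact absurd hxz (lt_irrefl _)
            · have := Finset.le_max' V z (hBV (hS hz))
              rw [← hv] at this
              omega
          · rcases Finset.mem_insert.1 hz with hz | hz
            · rw [hz]
              have := hS hx
              rw [hB, Finset.mem_filter] at this
              simpa using this.2
            · exact hf x hx z hz hxz
    exfalso
    push Not at h1 h2
    have h3 := Phi_step K a b
    have h4 : (R.card : ℝ) + B.card = V.card - 1 := by
      have : R.card + B.card + 1 = V.card := by omega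
      have h5 : ((R.card + B.card + 1 : ℕ) : ℝ) = V.card := by rw [this]
      push_cast at h5
      linarith
    linarith

theorem arrows_static {t y M : ℕ} (hy : y < t) (hM : Arrows M (t - y)) :
    Arrows ⌈2 * (((M : ℝ) + 1) * 9 ^ y * (9 / 8) ^ t)⌉₊ t := by
  apply arrows_of_finset
  intro f
  set K : ℝ := ((M : ℝ) + 1) * 9 ^ y * (9 / 8) ^ t with hKdef
  have hK : (M : ℝ) + 1 ≤ K * ((8 / 9 : ℝ) ^ t * (1 / 9) ^ y) := by
    have h1 : (9 / 8 : ℝ) ^ t * (8 / 9 : ℝ) ^ t = 1 := by
      rw [← mul_pow]; norm_num
    have h2 : (9 : ℝ) ^ y * (1 / 9) ^ y = 1 := by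
      rw [← mul_pow]; norm_num
    have h3 : K * ((8 / 9 : ℝ) ^ t * (1 / 9) ^ y) = ((M : ℝ) + 1) *
        ((9 / 8 : ℝ) ^ t * (8 / 9 : ℝ) ^ t) * ((9 : ℝ) ^ y * (1 / 9) ^ y) := by
      rw [hKdef]; ring
    rw [h3, h1, h2]
    linarith
  have hPhi : Phi K 0 0 = 2 * K := by
    unfold Phi
    norm_num
    ring
  have h := static_aux hy hM f K hK (2 * t) 0 0 (by omega) (by omega) (Or.inl (by omega))
    (by omega) (Finset.range ⌈2 * K⌉₊) (by
      rw [hPhi, Finset.card_range]
      have := Nat.le_ceil (2 * K)
      linarith)
  rcases h with ⟨S, hS, hc, hf⟩ | ⟨S, hS, hc, hf⟩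
  · exact ⟨S, hS, by simpa using hc, true, hf⟩
  · exact ⟨S, hS, by simpa using hc, false, hf⟩

theorem arrows_ramsey (t : ℕ) : Arrows (ramsey t) t := by
  have hne : {N : ℕ | Arrows N t}.Nonempty := by
    rcases Nat.eq_zero_or_pos t with rfl | ht
    · exact ⟨0, arrows_zero⟩
    · have h1 : Arrows 1 (t - (t - 1)) := by
        rw [show t - (t - 1) = 1 by omega]
        intro f
        refine ⟨Finset.univ, by simp, true, ?_⟩
        intro x _ y _ hxy
        exact absurd hxy (by rw [Subsingleton.elim x y]; exact lt_irrefl _)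
      exact ⟨_, arrows_static (by omega) h1⟩
  exact Nat.sInf_mem hne

theorem ramsey_le {t y : ℕ} (hy : y < t) :
    ramsey t ≤ ⌈2 * (((ramsey (t - y) : ℝ) + 1) * 9 ^ y * (9 / 8) ^ t)⌉₊ :=
  Nat.sInf_le (arrows_static hy (arrows_ramsey (t - y)))

theorem ramsey_mono {s t : ℕ} (hst : s ≤ t) : ramsey s ≤ ramsey t :=
  Nat.sInf_le ((arrows_ramsey t).mono hst)

end H48.OR
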